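import Mathlib
import Pool.Agent.TH841.NO.Fin
import Pool.Agent.W410.FK.FINH
import Pool.Agent.W513.FK.Parf
import Pool.Agent.W672.FK.Lowf
import Pool.Agent.W334.FK.SOM

/-!
# From the coprime pairs in squares to all the pairs in boxes
-/

set_option autoImplicit false

namespace Pool.Agent.Q8.QH

open Finset Pool.Agent.W307.RT

lemma Box_card (T : ℕ) : (Box T).card = (2 * T + 1) ^ 2 := by
  unfold Box
  rw [card_product, Int.card_Icc]
  have : ((T : ℤ) + 1 - -(T : ℤ)).toNat = 2 * T + 1 := by omega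
  rw [this, sq]

/-- the pairs of the box with a large greatest common divisor -/
lemma big_gcd {T D0 : ℕ} (hD0 : 1 ≤ D0) :
    (((Box T).filter (fun t : ℤ × ℤ => D0 < Int.gcd t.1 t.2)).card : ℝ) ≤
      9 * (T : ℝ) ^ 2 / D0 := by
  classical
  rcases Nat.lt_or_ge T D0 with hlt | hge
  · have : (Box T).filter (fun t : ℤ × ℤ => D0 < Int.gcd t.1 t.2) = ∅ := by
      apply filter_false_of_mem
      intro t ht hcon
      rw [mem_Box] at ht
      rcases eq_or_ne t.1 0 with h1 | h1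
      · rw [h1, Int.gcd_zero_left] at hcon
        omega
      · have h2 : Int.gcd t.1 t.2 ≤ t.1.natAbs :=
          Nat.le_of_dvd (by omega) (Int.natCast_dvd.1 (Int.gcd_dvd_left _ _))
        omega
    rw [this]
    simp only [card_empty, Nat.cast_zero]
    positivity
  let F : ℤ × ℤ → (Σ _ : ℕ, ℤ × ℤ) := fun t =>
    ⟨Int.gcd t.1 t.2, (t.1 / (Int.gcd t.1 t.2 : ℤ), t.2 / (Int.gcd t.1 t.2 : ℤ))⟩
  have hdiv : ∀ t : ℤ × ℤ, (Int.gcd t.1 t.2 : ℤ) * (t.1 / (Int.gcd t.1 t.2 : ℤ)) = t.1 ∧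
      (Int.gcd t.1 t.2 : ℤ) * (t.2 / (Int.gcd t.1 t.2 : ℤ)) = t.2 := fun t =>
    ⟨Int.mul_ediv_cancel' (Int.gcd_dvd_left _ _), Int.mul_ediv_cancel' (Int.gcd_dvd_right _ _)⟩
  have h1 : ((Box T).filter (fun t : ℤ × ℤ => D0 < Int.gcd t.1 t.2)).card ≤
      ((Ioc D0 T).sigma (fun g => Box (T / g))).card := by
    apply card_le_card_of_injOn F
    · intro t ht
      obtain ⟨ht1, ht2⟩ := mem_filter.1 (mem_coe.1 ht)
      rw [mem_Box] at ht1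
      obtain ⟨a1, a2⟩ := hdiv t
      have hg0 : 0 < Int.gcd t.1 t.2 := by omega
      have hgT : Int.gcd t.1 t.2 ≤ T := by
        rcases eq_or_ne t.1 0 with h0 | h0
        · have h0' : t.2 ≠ 0 := by
            intro h3
            rw [h0, h3] at hg0
            simp at hg0
          have : Int.gcd t.1 t.2 ≤ t.2.natAbs :=
            Nat.le_of_dvd (by omega) (Int.natCast_dvd.1 (Int.gcd_dvd_right _ _))
          omega
        · have : Int.gcd t.1 t.2 ≤ t.1.natAbs :=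
            Nat.le_of_dvd (by omega) (Int.natCast_dvd.1 (Int.gcd_dvd_left _ _))
          omega
      have hb : ∀ x y : ℤ, (Int.gcd t.1 t.2 : ℤ) * x = y → y.natAbs ≤ T →
          x.natAbs ≤ T / Int.gcd t.1 t.2 := by
        intro x y hxy hy
        rw [Nat.le_div_iff_mul_le hg0]
        rw [← hxy, Int.natAbs_mul, Int.natAbs_natCast] at hy
        linarith
      rw [mem_coe, mem_sigma, mem_Ioc, mem_Box]
      exact ⟨⟨ht2, hgT⟩, hb _ _ a1 ht1.1, hb _ _ a2 ht1.2⟩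
    · intro t _ t' _ h
      have g1 : Int.gcd t.1 t.2 = Int.gcd t'.1 t'.2 := congrArg Sigma.fst h
      have g2 : (t.1 / (Int.gcd t.1 t.2 : ℤ), t.2 / (Int.gcd t.1 t.2 : ℤ)) =
          (t'.1 / (Int.gcd t'.1 t'.2 : ℤ), t'.2 / (Int.gcd t'.1 t'.2 : ℤ)) :=
        congrArg (fun x : (Σ _ : ℕ, ℤ × ℤ) => x.2) h
      rw [Prod.mk.injEq] at g2
      obtain ⟨a1, a2⟩ := hdiv t
      obtain ⟨b1, b2⟩ := hdiv t'
      ext
      · rw [← a1, ← b1, g2.1, g1]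
      · rw [← a2, ← b2, g2.2, g1]
  rw [card_sigma] at h1
  have h2 : ((∑ g ∈ Ioc D0 T, (Box (T / g)).card : ℕ) : ℝ) ≤
      9 * (T : ℝ) ^ 2 * ∑ g ∈ Ioc D0 T, ((g : ℝ) ^ 2)⁻¹ := by
    rw [Nat.cast_sum, mul_sum]
    refine sum_le_sum fun g hg => ?_
    rw [mem_Ioc] at hg
    have hg0 : (0 : ℝ) < g := by exact_mod_cast (by omega : 0 < g)
    have h3 : 1 ≤ T / g := (Nat.one_le_div_iff (by omega)).2 hg.2
    rw [Box_card]
    have h4 : ((2 * (T / g) + 1 : ℕ) : ℝ) ≤ 3 * ((T : ℝ) / g) := by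
      have h5 : (((T / g : ℕ)) : ℝ) ≤ (T : ℝ) / g := Nat.cast_div_le
      have h6 : (1 : ℝ) ≤ ((T / g : ℕ) : ℝ) := by exact_mod_cast h3
      push_cast
      linarith
    rw [Nat.cast_pow]
    calc ((2 * (T / g) + 1 : ℕ) : ℝ) ^ 2 ≤ (3 * ((T : ℝ) / g)) ^ 2 :=
          pow_le_pow_left₀ (Nat.cast_nonneg _) h4 2
      _ = 9 * (T : ℝ) ^ 2 * ((g : ℝ) ^ 2)⁻¹ := by
          field_simp
          ring
  have h3 : ∑ g ∈ Ioc D0 T, ((g : ℝ) ^ 2)⁻¹ ≤ (D0 : ℝ)⁻¹ := by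
    have := sum_Ioc_inv_sq_le_sub (α := ℝ) (k := D0) (n := T) (by omega) hge
    have h4 : (0 : ℝ) ≤ (T : ℝ)⁻¹ := by positivity
    linarith
  calc (((Box T).filter (fun t : ℤ × ℤ => D0 < Int.gcd t.1 t.2)).card : ℝ)
      ≤ ((∑ g ∈ Ioc D0 T, (Box (T / g)).card : ℕ) : ℝ) := by exact_mod_cast h1
    _ ≤ _ := h2
    _ ≤ 9 * (T : ℝ) ^ 2 * (D0 : ℝ)⁻¹ := mul_le_mul_of_nonneg_left h3 (by positivity)
    _ = _ := by rw [div_eq_mul_inv]

open Classical in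
/-- from the coprime pairs, with a factor `D`, to all the pairs of the boxes -/
theorem box_of {Bad : ℕ → ℤ → ℤ → Prop} (h : ∀ D : ℕ, 1 ≤ D → ∀ ε : ℝ, 0 < ε → ∃ T0 : ℕ,
    ∀ T : ℕ, T0 ≤ T → (((Box (T / D)).filter (fun t : ℤ × ℤ => IsCoprime t.1 t.2 ∧
      Bad T (D * t.1) (D * t.2))).card : ℝ) ≤ ε * (T : ℝ) ^ 2) (ε : ℝ) (hε : 0 < ε) :
    ∃ T0 : ℕ, ∀ T : ℕ, T0 ≤ T →
      (((Box T).filter (fun t : ℤ × ℤ => Bad T t.1 t.2)).card : ℝ) ≤ ε * (T : ℝ) ^ 2 := by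
  obtain ⟨D0, hD0⟩ : ∃ D0 : ℕ, D0 = ⌈27 / ε⌉₊ + 1 := ⟨_, rfl⟩
  have hD01 : 1 ≤ D0 := by omega
  have hD0r : 27 / ε ≤ (D0 : ℝ) := by
    rw [hD0]
    push_cast
    exact (Nat.le_ceil _).trans (by linarith)
  have hD0p : (0 : ℝ) < D0 := by exact_mod_cast hD01
  choose! g hg using fun D : ℕ => fun hD : 1 ≤ D => h D hD (ε / (3 * D0)) (by positivity)
  obtain ⟨T1, hT1⟩ : ∃ T1 : ℕ, ∀ D ∈ Icc 1 D0, g D ≤ T1 :=
    ⟨∑ D ∈ Icc 1 D0, g D, fun D hD => single_le_sum (f := g) (fun _ _ => Nat.zero_le _) hD⟩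
  obtain ⟨T2, hT2⟩ : ∃ T2 : ℕ, T2 = ⌈3 / ε⌉₊ + 1 := ⟨_, rfl⟩
  refine ⟨T1 + T2, fun T hT => ?_⟩
  have hTr : 3 / ε ≤ (T : ℝ) := by
    have h1 : (T2 : ℝ) ≤ T := by exact_mod_cast (by omega : T2 ≤ T)
    refine le_trans ?_ h1
    rw [hT2]
    push_cast
    exact (Nat.le_ceil _).trans (by linarith)
  have hT1' : (1 : ℝ) ≤ T := by exact_mod_cast (by omega : 1 ≤ T)
  have hone : (1 : ℝ) ≤ ε / 3 * (T : ℝ) ^ 2 := by
    rw [div_le_iff₀ hε] at hTr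
    nlinarith
  have hsub : (Box T).filter (fun t : ℤ × ℤ => Bad T t.1 t.2) ⊆
      ({(0, 0)} : Finset (ℤ × ℤ)) ∪ ((Icc 1 D0).biUnion fun D =>
        ((Box (T / D)).filter (fun t : ℤ × ℤ => IsCoprime t.1 t.2 ∧
          Bad T (D * t.1) (D * t.2))).image fun t => ((D : ℤ) * t.1, (D : ℤ) * t.2)) ∪
        (Box T).filter (fun t : ℤ × ℤ => D0 < Int.gcd t.1 t.2) := by
    intro t ht
    obtain ⟨ht1, ht2⟩ := mem_filter.1 ht
    rw [mem_union, mem_union]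
    rcases Nat.eq_zero_or_pos (Int.gcd t.1 t.2) with h0 | h0
    · left; left
      rw [Int.gcd_eq_zero_iff] at h0
      rw [mem_singleton]
      exact Prod.ext h0.1 h0.2
    by_cases hb : D0 < Int.gcd t.1 t.2
    · exact Or.inr (mem_filter.2 ⟨ht1, hb⟩)
    · left; right
      rw [mem_biUnion]
      have a1 := Int.mul_ediv_cancel' (Int.gcd_dvd_left t.1 t.2)
      have a2 := Int.mul_ediv_cancel' (Int.gcd_dvd_right t.1 t.2)
      rw [mem_Box] at ht1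
      have hbd : ∀ x y : ℤ, (Int.gcd t.1 t.2 : ℤ) * x = y → y.natAbs ≤ T →
          x.natAbs ≤ T / Int.gcd t.1 t.2 := by
        intro x y hxy hy
        rw [Nat.le_div_iff_mul_le h0]
        rw [← hxy, Int.natAbs_mul, Int.natAbs_natCast] at hy
        linarith
      refine ⟨Int.gcd t.1 t.2, mem_Icc.2 ⟨h0, by omega⟩, mem_image.2
        ⟨(t.1 / (Int.gcd t.1 t.2 : ℤ), t.2 / (Int.gcd t.1 t.2 : ℤ)), mem_filter.2
          ⟨mem_Box.2 ⟨hbd _ _ a1 ht1.1, hbd _ _ a2 ht1.2⟩, ?_, ?_⟩, Prod.ext a1 a2⟩⟩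
      · exact Int.isCoprime_iff_gcd_eq_one.2 (Int.gcd_ediv_gcd_ediv_gcd h0)
      · change Bad T ((Int.gcd t.1 t.2 : ℤ) * (t.1 / (Int.gcd t.1 t.2 : ℤ)))
          ((Int.gcd t.1 t.2 : ℤ) * (t.2 / (Int.gcd t.1 t.2 : ℤ)))
        rw [a1, a2]
        exact ht2
  have h1 := (card_le_card hsub).trans ((card_union_le _ _).trans
    (Nat.add_le_add_right (card_union_le _ _) _))
  rw [card_singleton] at h1
  have h2 : ((((Icc 1 D0).biUnion fun D =>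
        ((Box (T / D)).filter (fun t : ℤ × ℤ => IsCoprime t.1 t.2 ∧
          Bad T (D * t.1) (D * t.2))).image fun t => ((D : ℤ) * t.1, (D : ℤ) * t.2)).card : ℕ) :
      ℝ) ≤ ε / 3 * (T : ℝ) ^ 2 := by
    have h3 : ((((Icc 1 D0).biUnion fun D =>
        ((Box (T / D)).filter (fun t : ℤ × ℤ => IsCoprime t.1 t.2 ∧
          Bad T (D * t.1) (D * t.2))).image fun t => ((D : ℤ) * t.1, (D : ℤ) * t.2)).card : ℕ) :
      ℝ) ≤ ∑ D ∈ Icc 1 D0, ε / (3 * D0) * (T : ℝ) ^ 2 := by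
      refine (Nat.cast_le.2 card_biUnion_le).trans ?_
      rw [Nat.cast_sum]
      refine sum_le_sum fun D hD => ?_
      refine (Nat.cast_le.2 card_image_le).trans ?_
      have hD' := hT1 D hD
      exact hg D (mem_Icc.1 hD).1 T (by omega)
    refine h3.trans (le_of_eq ?_)
    rw [sum_const, Nat.card_Icc, nsmul_eq_mul, Nat.add_sub_cancel]
    field_simp
  have h3 := big_gcd (T := T) hD01
  have h4 : 9 * (T : ℝ) ^ 2 / D0 ≤ ε / 3 * (T : ℝ) ^ 2 := by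
    rw [div_le_iff₀ hD0p]
    rw [div_le_iff₀ hε] at hD0r
    have : 0 ≤ (T : ℝ) ^ 2 := by positivity
    nlinarith
  have h5 := (Nat.cast_le (α := ℝ)).2 h1
  rw [Nat.cast_add, Nat.cast_add, Nat.cast_one] at h5
  linarith

end Pool.Agent.Q8.QH
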