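import Mathlib
import Pool.Agent.Q8.QH.Box

/-!
# The curves with full rational 2-torsion, by height
-/

set_option autoImplicit false

namespace Pool.Agent.Q8.QH

open Finset Pool.Agent.W307.RT

open Pool.Agent.TH841.SH.D (rk)

open Pool.Agent.TH841.NO (fo SQ norder2)

/-- `x³ + c.1 x + c.2 = (x - e) (x - e - A) (x - e - B)` for some `e` -/
def Roots (c : ℤ × ℤ) (A B : ℤ) : Prop :=
  ∃ e : ℤ, ∀ x : ℤ, x ^ 3 + c.1 * x + c.2 = (x - e) * (x - (e + A)) * (x - (e + B))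

lemma roots_inj {c c' : ℤ × ℤ} {A B : ℤ} (h : Roots c A B) (h' : Roots c' A B) : c = c' := by
  obtain ⟨e, he⟩ := h
  obtain ⟨e', he'⟩ := h'
  have a0 := he 0
  have a1 := he 1
  have a2 := he (-1)
  have b0 := he' 0
  have b1 := he' 1
  have b2 := he' (-1)
  have s1 : 3 * e + A + B = 0 := by nlinarith
  have s2 : 3 * e' + A + B = 0 := by nlinarith
  have s3 : e = e' := by linarith
  subst s3
  ext
  · linarith
  · linarith

lemma roots_ne {c : ℤ × ℤ} {A B : ℤ} (h : Roots c A B) (hc : 4 * c.1 ^ 3 + 27 * c.2 ^ 2 ≠ 0) :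
    A ≠ 0 ∧ B ≠ 0 ∧ A ≠ B := by
  obtain ⟨e, he⟩ := h
  have a0 := he 0
  have a1 := he 1
  have a2 := he (-1)
  have s1 : 3 * e + A + B = 0 := by nlinarith
  have s2 : c.2 = -(e * (e + A) * (e + B)) := by linarith
  have s3 : c.1 = e * (e + A) + e * (e + B) + (e + A) * (e + B) := by nlinarith
  have s4 : B = -(3 * e) - A := by linarith
  have key : 4 * c.1 ^ 3 + 27 * c.2 ^ 2 = -(A ^ 2 * B ^ 2 * (A - B) ^ 2) := by
    rw [s2, s3, s4]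
    ring
  refine ⟨?_, ?_, ?_⟩
  · rintro rfl
    exact hc (by rw [key]; ring)
  · rintro rfl
    exact hc (by rw [key]; ring)
  · rintro rfl
    exact hc (by rw [key]; ring)

lemma tau_ex (H : ℕ) : ∃ t : ℕ, 16 * H ≤ t ^ 6 := ⟨16 * H, Nat.le_self_pow (by norm_num) _⟩

open Classical in
/-- the smallest `t` with `16 H ≤ t ^ 6` -/
noncomputable def tau (H : ℕ) : ℕ := Nat.find (tau_ex H)

lemma tau_spec (H : ℕ) : 16 * H ≤ tau H ^ 6 := by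
  classical
  exact Nat.find_spec (tau_ex H)

lemma tau_min {H t : ℕ} (ht : t < tau H) : t ^ 6 < 16 * H := by
  classical
  exact not_le.1 (Nat.find_min (tau_ex H) ht)

lemma tau_le {H : ℕ} (hH : 2 ≤ H) : tau H ≤ H := by
  classical
  apply Nat.find_min' (tau_ex H)
  calc 16 * H ≤ H ^ 5 * H := Nat.mul_le_mul_right _ (by
        calc 16 ≤ 2 ^ 5 := by norm_num
          _ ≤ H ^ 5 := Nat.pow_le_pow_left hH 5)
    _ = H ^ 6 := by ring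

lemma mem_cv {H : ℕ} {c : ℤ × ℤ} (hc : c ∈ Cv 2 H) : 4 * c.1 ^ 3 + 27 * c.2 ^ 2 ≠ 0 ∧
    4 * |c.1| ^ 3 ≤ H ∧ HasT 2 (Sh c.1 c.2) := by
  classical
  unfold Cv at hc
  obtain ⟨_, a1, a2, _, _, a3⟩ := mem_filter.1 hc
  exact ⟨a1, a2, a3⟩

lemma roots_ex {H : ℕ} {c : ℤ × ℤ} (hc : c ∈ Cv 2 H) : ∃ A B : ℤ, Roots c A B := by
  obtain ⟨a1, -, a3⟩ := mem_cv hc
  obtain ⟨F, -, hF⟩ := Pool.Agent.W513.FK.parf
  obtain ⟨-, -, -, -, -, e1, e2, e3, h, -⟩ := hF c a1 a3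
  refine ⟨e2 - e1, e3 - e1, e1, fun x => ?_⟩
  rw [h x]
  ring

lemma roots_bd {H : ℕ} {c : ℤ × ℤ} (hc : c ∈ Cv 2 H) {A B : ℤ} (h : Roots c A B) :
    A.natAbs ≤ tau H ∧ B.natAbs ≤ tau H := by
  obtain ⟨-, a2, -⟩ := mem_cv hc
  obtain ⟨e, he⟩ := h
  obtain ⟨r1, r2⟩ := Pool.Agent.W410.FK.root_bd he
  have e1 : e + A - e = A := by ring
  have e2 : e + B - e = B := by ring
  rw [e1] at r1
  rw [e2] at r2
  have h1 := Pool.Agent.W410.FK.size_bd r1 a2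
  have h2 := Pool.Agent.W410.FK.size_bd r2 a2
  have h3 := tau_spec H
  exact ⟨le_of_not_gt fun h' => absurd (h1.trans h3) (not_le.2
      (Nat.pow_lt_pow_left h' (by norm_num))), le_of_not_gt fun h' => absurd (h2.trans h3)
      (not_le.2 (Nat.pow_lt_pow_left h' (by norm_num)))⟩

/-- the number of the curves -/
lemma cmp : ∃ K : ℝ, 0 < K ∧ ∀ H : ℕ, (Cv 2 H).Nonempty →
    ((tau H : ℕ) : ℝ) ^ 2 ≤ K * ((Cv 2 H).card : ℝ) := by
  obtain ⟨c, C, T0, hc, hlow⟩ := Pool.Agent.W672.FK.lowf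
  obtain ⟨k, hk⟩ : ∃ k : ℕ, k = 16 * C + 1 := ⟨_, rfl⟩
  have hk1 : 1 ≤ k := by omega
  have hkk : 16 * C ≤ k ^ 6 := le_trans (by omega) (Nat.le_self_pow (n := 6) (by norm_num) k)
  have hkr : (1 : ℝ) ≤ k := by exact_mod_cast hk1
  refine ⟨4 * (k : ℝ) ^ 2 / c + ((k * (T0 + 1) : ℕ) : ℝ) ^ 2, by positivity, fun H hne => ?_⟩
  have hcard : (1 : ℝ) ≤ ((Cv 2 H).card : ℝ) := by exact_mod_cast hne.card_pos
  rcases Nat.lt_or_ge (tau H) (k * (T0 + 1) + 1) with h1 | h1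
  · have h2 : ((tau H : ℕ) : ℝ) ≤ ((k * (T0 + 1) : ℕ) : ℝ) := by exact_mod_cast (by omega)
    have h3 : ((tau H : ℕ) : ℝ) ^ 2 ≤ ((k * (T0 + 1) : ℕ) : ℝ) ^ 2 :=
      pow_le_pow_left₀ (Nat.cast_nonneg _) h2 2
    have h4 : (0 : ℝ) ≤ 4 * (k : ℝ) ^ 2 / c := by positivity
    have h5 : (0 : ℝ) ≤ ((k * (T0 + 1) : ℕ) : ℝ) ^ 2 := by positivity
    nlinarith
  · obtain ⟨t, ht⟩ : ∃ t : ℕ, t = tau H - 1 := ⟨_, rfl⟩
    have ht1 : tau H = t + 1 := by omega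
    obtain ⟨T', hT'⟩ : ∃ T' : ℕ, T' = t / k := ⟨_, rfl⟩
    have hT'0 : T0 + 1 ≤ T' := by
      rw [hT', Nat.le_div_iff_mul_le (by omega)]
      have : (T0 + 1) * k = k * (T0 + 1) := by ring
      omega
    have h6 := tau_min (H := H) (t := t) (by omega)
    have h7 : C * T' ^ 6 ≤ H := by
      have h8 : T' * k ≤ t := by
        rw [hT']
        exact Nat.div_mul_le_self t k
      have h9 : (T' * k) ^ 6 < 16 * H := lt_of_le_of_lt (Nat.pow_le_pow_left h8 6) h6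
      rw [mul_pow] at h9
      have h10 : 16 * (C * T' ^ 6) ≤ T' ^ 6 * k ^ 6 := by
        calc 16 * (C * T' ^ 6) = T' ^ 6 * (16 * C) := by ring
          _ ≤ T' ^ 6 * k ^ 6 := Nat.mul_le_mul_left _ hkk
      omega
    have h8 := hlow T' H (by omega) h7
    have h9 : t < k * (T' + 1) := by
      rw [hT']
      have := Nat.lt_mul_div_succ t (by omega : 0 < k)
      exact this
    have h10 : tau H ≤ 2 * (k * T') := by
      have : k * (T' + 1) = k * T' + k := by ring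
      have h11 : k * 1 ≤ k * T' := Nat.mul_le_mul_left _ (by omega)
      omega
    have h11 : ((tau H : ℕ) : ℝ) ≤ 2 * ((k : ℝ) * T') := by exact_mod_cast h10
    have h12 : ((tau H : ℕ) : ℝ) ^ 2 ≤ (2 * ((k : ℝ) * T')) ^ 2 :=
      pow_le_pow_left₀ (Nat.cast_nonneg _) h11 2
    have h13 : (2 * ((k : ℝ) * T')) ^ 2 ≤ 4 * (k : ℝ) ^ 2 / c * ((Cv 2 H).card : ℝ) := by
      have h14 : (T' : ℝ) ^ 2 ≤ ((Cv 2 H).card : ℝ) / c := by
        rw [le_div_iff₀ hc]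
        linarith
      calc (2 * ((k : ℝ) * T')) ^ 2 = 4 * (k : ℝ) ^ 2 * (T' : ℝ) ^ 2 := by ring
        _ ≤ 4 * (k : ℝ) ^ 2 * (((Cv 2 H).card : ℝ) / c) :=
            mul_le_mul_of_nonneg_left h14 (by positivity)
        _ = _ := by ring
    have h14 : 0 ≤ ((k * (T0 + 1) : ℕ) : ℝ) ^ 2 * ((Cv 2 H).card : ℝ) :=
      mul_nonneg (sq_nonneg _) (Nat.cast_nonneg _)
    rw [add_mul]
    linarith

/-- sums over the curves, for any choice of the order of the roots -/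
theorem ht_sum {g : ℤ × ℤ → ℝ} (hg : ∀ t, 0 ≤ g t) (hbox : ∃ C : ℝ, 0 ≤ C ∧ ∀ T : ℕ, 1 ≤ T →
      ∑ t ∈ Box T, g t ≤ C * (T : ℝ) ^ 2) :
    ∃ C : ℝ, 0 ≤ C ∧ ∀ (H : ℕ) (f : ℤ × ℤ → ℤ × ℤ), (∀ c ∈ Cv 2 H, Roots c (f c).1 (f c).2) →
      ∑ c ∈ Cv 2 H, g (f c) ≤ C * ((Cv 2 H).card : ℝ) := by
  classical
  obtain ⟨C, hC, hb⟩ := hbox
  obtain ⟨K, hK, hcmp⟩ := cmp
  refine ⟨C * K, by positivity, fun H f hf => ?_⟩
  rcases (Cv 2 H).eq_empty_or_nonempty with h0 | h0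
  · rw [h0]
    simp
  have hinj : Set.InjOn f (Cv 2 H : Set (ℤ × ℤ)) := by
    intro c hc c' hc' h
    have h1 := hf c hc
    have h2 := hf c' hc'
    rw [h] at h1
    exact roots_inj h1 h2
  have ht1 : 1 ≤ tau H := by
    obtain ⟨c, hc⟩ := h0
    obtain ⟨b1, -⟩ := roots_bd hc (hf c hc)
    obtain ⟨b2, -⟩ := roots_ne (hf c hc) (mem_cv hc).1
    omega
  calc ∑ c ∈ Cv 2 H, g (f c) = ∑ t ∈ (Cv 2 H).image f, g t := (sum_image hinj).symm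
    _ ≤ ∑ t ∈ Box (tau H), g t := sum_le_sum_of_subset_of_nonneg (fun t ht => by
        obtain ⟨c, hc, rfl⟩ := mem_image.1 ht
        exact mem_Box.2 (roots_bd hc (hf c hc))) fun t _ _ => hg t
    _ ≤ C * ((tau H : ℕ) : ℝ) ^ 2 := hb _ ht1
    _ ≤ C * (K * ((Cv 2 H).card : ℝ)) := mul_le_mul_of_nonneg_left (hcmp H h0) hC
    _ = _ := by ring

open Classical in
/-- almost all the curves, for all the orders of the roots -/
theorem ht_ae {Bad : ℕ → ℤ → ℤ → Prop} (h : ∀ ε : ℝ, 0 < ε → ∃ T0 : ℕ, ∀ T : ℕ, T0 ≤ T →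
      (((Box T).filter (fun t : ℤ × ℤ => Bad T t.1 t.2)).card : ℝ) ≤ ε * (T : ℝ) ^ 2)
    (ε : ℝ) (hε : 0 < ε) : ∃ H0 : ℕ, ∀ H : ℕ, H0 ≤ H →
      (((Cv 2 H).filter (fun c : ℤ × ℤ => ∃ A B : ℤ, Roots c A B ∧ Bad (tau H) A B)).card : ℝ) ≤
        ε * ((Cv 2 H).card : ℝ) := by
  obtain ⟨K, hK, hcmp⟩ := cmp
  obtain ⟨T0, hT0⟩ := h (ε / K) (by positivity)
  refine ⟨T0 ^ 6, fun H hH => ?_⟩
  rcases (Cv 2 H).eq_empty_or_nonempty with h0 | h0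
  · rw [h0]
    simp
  have hT : T0 ≤ tau H := by
    by_contra hcon
    push Not at hcon
    have h1 : tau H ^ 6 < T0 ^ 6 := Nat.pow_lt_pow_left hcon (by norm_num)
    have h2 := tau_spec H
    omega
  have h1 := hT0 (tau H) hT
  obtain ⟨f, hf⟩ : ∃ f : ℤ × ℤ → ℤ × ℤ, ∀ c ∈ (Cv 2 H).filter (fun c : ℤ × ℤ =>
      ∃ A B : ℤ, Roots c A B ∧ Bad (tau H) A B), Roots c (f c).1 (f c).2 ∧
        Bad (tau H) (f c).1 (f c).2 := by
    have : ∀ c : ℤ × ℤ, ∃ t : ℤ × ℤ, c ∈ (Cv 2 H).filter (fun c : ℤ × ℤ =>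
      ∃ A B : ℤ, Roots c A B ∧ Bad (tau H) A B) → Roots c t.1 t.2 ∧
        Bad (tau H) t.1 t.2 := by
      intro c
      by_cases hc : c ∈ (Cv 2 H).filter (fun c : ℤ × ℤ =>
          ∃ A B : ℤ, Roots c A B ∧ Bad (tau H) A B)
      · obtain ⟨-, A, B, h2, h3⟩ := mem_filter.1 hc
        exact ⟨(A, B), fun _ => ⟨h2, h3⟩⟩
      · exact ⟨(0, 0), fun h2 => absurd h2 hc⟩
    choose f hf using this
    exact ⟨f, hf⟩
  have h2 : ((Cv 2 H).filter (fun c : ℤ × ℤ => ∃ A B : ℤ, Roots c A B ∧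
      Bad (tau H) A B)).card ≤ ((Box (tau H)).filter (fun t : ℤ × ℤ =>
        Bad (tau H) t.1 t.2)).card := by
    apply card_le_card_of_injOn f
    · intro c hc
      obtain ⟨h3, h4⟩ := hf c (mem_coe.1 hc)
      obtain ⟨h5, -⟩ := mem_filter.1 (mem_coe.1 hc)
      rw [mem_coe, mem_filter, mem_Box]
      exact ⟨roots_bd h5 h3, h4⟩
    · intro c hc c' hc' he
      obtain ⟨h3, -⟩ := hf c (mem_coe.1 hc)
      obtain ⟨h4, -⟩ := hf c' (mem_coe.1 hc')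
      rw [he] at h3
      exact roots_inj h3 h4
  have h3 := hcmp H h0
  calc (((Cv 2 H).filter (fun c : ℤ × ℤ => ∃ A B : ℤ, Roots c A B ∧
      Bad (tau H) A B)).card : ℝ) ≤ _ := Nat.cast_le.2 h2
    _ ≤ ε / K * ((tau H : ℕ) : ℝ) ^ 2 := h1
    _ ≤ ε / K * (K * ((Cv 2 H).card : ℝ)) := mul_le_mul_of_nonneg_left h3 (by positivity)
    _ = _ := by field_simp

/-! ### The normal order -/

lemma lglg_le {x y k : ℕ} (hx : 3 ≤ x) (hy : 3 ≤ y) (hk : k ≤ 6) (h : y ≤ x ^ k) :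
    Real.log (Real.log y) ≤ Real.log (Real.log x) + 2 := by
  have hx3 : (3 : ℝ) ≤ x := by exact_mod_cast hx
  have hy3 : (3 : ℝ) ≤ y := by exact_mod_cast hy
  have l3 : ∀ z : ℝ, 3 ≤ z → 1 < Real.log z := by
    intro z hz
    have h4 : Real.exp 1 < z := lt_of_lt_of_le (Real.exp_one_lt_d9.trans (by norm_num)) hz
    have := Real.log_lt_log (Real.exp_pos 1) h4
    rwa [Real.log_exp] at this
  have hlx := l3 _ hx3
  have hly := l3 _ hy3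
  have h1 : Real.log y ≤ 6 * Real.log x := by
    have h2 : (y : ℝ) ≤ (x : ℝ) ^ k := by exact_mod_cast h
    have h3 := Real.log_le_log (by linarith) h2
    rw [Real.log_pow] at h3
    have h4 : (k : ℝ) ≤ 6 := by exact_mod_cast hk
    nlinarith
  have h2 := Real.log_le_log (by linarith) h1
  rw [Real.log_mul (by norm_num) (by linarith)] at h2
  have h6 : Real.log 6 ≤ 2 := by
    have h7 : (6 : ℝ) ≤ Real.exp 2 := by
      have h8 : (2.5 : ℝ) ≤ Real.exp 1 := by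
        have := Real.exp_one_gt_d9
        linarith
      have h9 : Real.exp 2 = Real.exp 1 * Real.exp 1 := by
        rw [← Real.exp_add]
        norm_num
      rw [h9]
      nlinarith
    have := Real.log_le_log (by norm_num) h7
    rwa [Real.log_exp] at this
  linarith

/-- the pair `(A, B)` is normal -/
def Nm (δ l : ℝ) (A B : ℤ) : Prop := A ≠ 0 ∧ B ≠ 0 ∧ A ≠ B ∧
  (3 / 2 - δ) * l ≤ fo (-(A + B)) (A * B) ∧ (fo (-(A + B)) (A * B) : ℝ) ≤ (3 / 2 + δ) * l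

/-- change of `δ` and `l` -/
lemma Nm.mono {δ l l' : ℝ} {A B : ℤ} (h : Nm (δ / 2) l' A B) (h1 : l ≤ l' + 2) (h2 : l' ≤ l + 2)
    (hδ : 0 < δ) (hδ1 : δ ≤ 1) (h3 : 8 ≤ δ * l) : Nm δ l A B := by
  obtain ⟨a1, a2, a3, a4, a5⟩ := h
  refine ⟨a1, a2, a3, le_trans ?_ a4, a5.trans ?_⟩
  · nlinarith
  · nlinarith

open Classical in
theorem box_nm (δ : ℝ) (hδ : 0 < δ) (hδ1 : δ ≤ 1) (ε : ℝ) (hε : 0 < ε) :
    ∃ T0 : ℕ, ∀ T : ℕ, T0 ≤ T → (((Box T).filter (fun t : ℤ × ℤ =>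
      ¬ Nm δ (Real.log (Real.log T)) t.1 t.2)).card : ℝ) ≤ ε * (T : ℝ) ^ 2 := by
  suffices hs : ∀ D : ℕ, 1 ≤ D → ∀ ε : ℝ, 0 < ε → ∃ T0 : ℕ,
      ∀ T : ℕ, T0 ≤ T → (((Box (T / D)).filter (fun t : ℤ × ℤ => IsCoprime t.1 t.2 ∧
      ¬ Nm δ (Real.log (Real.log T)) (D * t.1) (D * t.2))).card : ℝ) ≤ ε * (T : ℝ) ^ 2 by
    obtain ⟨T0, h0⟩ := box_of (Bad := fun T A B => ¬ Nm δ (Real.log (Real.log T)) A B)
      (fun D hD ε hε => by
        obtain ⟨T0, h0⟩ := hs D hD ε hε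
        refine ⟨T0, fun T hT => ?_⟩
        have := h0 T hT
        convert this) ε hε
    refine ⟨T0, fun T hT => ?_⟩
    have := h0 T hT
    convert this
  intro D hD ε hε
  obtain ⟨R, X0, h⟩ := norder2 Pool.Agent.TH841.NO.QULf.qul Pool.Agent.TH841.NO.QUMf.qum
    Pool.Agent.TH841.NO.LWAf.lwa Pool.Agent.TH841.NO.LWBf.lwb Pool.Agent.TH841.NO.LWBf.lwc
    Pool.Agent.TH841.NO.PRf.pra Pool.Agent.TH841.NO.PRf.prb
    Pool.Agent.TH841.NO.LIN2f.lin2 Pool.Agent.TH841.LS.CNT2Xf.cnt2x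
    Pool.Agent.TH841.NO.CNTU2f.cntu2
    (Pool.Agent.W307.FK.avgn_of Pool.Agent.W307.FK.expf) (D : ℤ)
    (by exact_mod_cast (by omega : D ≠ 0)) (δ / 2) (ε / 9) 1 (by positivity) (by positivity)
  obtain ⟨M, hM⟩ := Pool.Agent.TH841.LS.big_loglog δ 8 hδ
  refine ⟨(X0 + D ^ 2 + 6) * D + M + 9, fun T hT => ?_⟩
  obtain ⟨q, hq⟩ : ∃ q : ℕ, q = T / D := ⟨_, rfl⟩
  obtain ⟨Y, hY⟩ : ∃ Y : ℕ, Y = 2 * q + 1 := ⟨_, rfl⟩
  have hq1 : X0 + D ^ 2 + 6 ≤ q := by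
    rw [hq, Nat.le_div_iff_mul_le (by omega)]
    omega
  have hqT : q ≤ T := by
    rw [hq]
    exact Nat.div_le_self _ _
  have hTq : T < D * (q + 1) := by
    rw [hq]
    exact Nat.lt_mul_div_succ T (by omega)
  have h1 := h (-(q : ℤ) - 1) (-(q : ℤ) - 1) Y (by omega) (by rw [pow_one]; omega)
    (by rw [pow_one]; omega)
  have hYT : Y ≤ 3 * T := by omega
  have hYT2 : Y ≤ T ^ 2 := by
    calc Y ≤ 3 * T := hYT
      _ ≤ T * T := Nat.mul_le_mul_right _ (by omega)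
      _ = T ^ 2 := by ring
  have hTY2 : T ≤ Y ^ 2 := by
    calc T ≤ D * (q + 1) := hTq.le
      _ ≤ (q + 1) * (q + 1) := Nat.mul_le_mul_right _ (by nlinarith)
      _ ≤ Y * Y := Nat.mul_le_mul (by omega) (by omega)
      _ = Y ^ 2 := by ring
  have l1 := lglg_le (k := 2) (by omega : 3 ≤ T) (by omega : 3 ≤ Y) (by norm_num) hYT2
  have l2 := lglg_le (k := 2) (by omega : 3 ≤ Y) (by omega : 3 ≤ T) (by norm_num) hTY2
  have l3 := hM T (by omega)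
  rw [← hq]
  have h2 : ((Box q).filter (fun t : ℤ × ℤ => IsCoprime t.1 t.2 ∧
      ¬ Nm δ (Real.log (Real.log T)) ((D : ℤ) * t.1) ((D : ℤ) * t.2))).card ≤
      ((Icc 1 Y ×ˢ Icc 1 Y).filter (fun t : ℕ × ℕ =>
        IsCoprime ((-(q : ℤ) - 1) + (t.1 : ℤ)) ((-(q : ℤ) - 1) + (t.2 : ℤ)) ∧
        ¬ ∀ A B : ℤ, A = (D : ℤ) * ((-(q : ℤ) - 1) + (t.1 : ℤ)) →
          B = (D : ℤ) * ((-(q : ℤ) - 1) + (t.2 : ℤ)) →
        A ≠ 0 ∧ B ≠ 0 ∧ A ≠ B ∧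
        (3 / 2 - δ / 2) * Real.log (Real.log Y) ≤ fo (-(A + B)) (A * B) ∧
        (fo (-(A + B)) (A * B) : ℝ) ≤ (3 / 2 + δ / 2) * Real.log (Real.log Y) ∧
        fo (2 * (A + B)) ((A - B) ^ 2) ≤ R ∧
          rk (Pool.Agent.TH841.PT.EQ A B) ≤ R)).card := by
    apply card_le_card_of_injOn (fun t : ℤ × ℤ => ((t.1 + q + 1).toNat, (t.2 + q + 1).toNat))
    · intro t ht
      obtain ⟨ht1, ht2, ht3⟩ := mem_filter.1 (mem_coe.1 ht)
      rw [mem_Box] at ht1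
      have e1 : (-(q : ℤ) - 1) + (((t.1 + q + 1).toNat : ℕ) : ℤ) = t.1 := by omega
      have e2 : (-(q : ℤ) - 1) + (((t.2 + q + 1).toNat : ℕ) : ℤ) = t.2 := by omega
      rw [mem_coe, mem_filter, mem_product, mem_Icc, mem_Icc]
      refine ⟨by dsimp only; omega, ?_, fun hall => ?_⟩
      · change IsCoprime ((-(q : ℤ) - 1) + (((t.1 + q + 1).toNat : ℕ) : ℤ))
          ((-(q : ℤ) - 1) + (((t.2 + q + 1).toNat : ℕ) : ℤ))
        rw [e1, e2]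
        exact ht2
      · obtain ⟨a1, a2, a3, a4, a5, -⟩ := hall _ _ rfl rfl
        change (D : ℤ) * ((-(q : ℤ) - 1) + (((t.1 + q + 1).toNat : ℕ) : ℤ)) ≠ 0 at a1
        change (D : ℤ) * ((-(q : ℤ) - 1) + (((t.2 + q + 1).toNat : ℕ) : ℤ)) ≠ 0 at a2
        change (D : ℤ) * ((-(q : ℤ) - 1) + (((t.1 + q + 1).toNat : ℕ) : ℤ)) ≠
          (D : ℤ) * ((-(q : ℤ) - 1) + (((t.2 + q + 1).toNat : ℕ) : ℤ)) at a3
        rw [e1] at a1
        rw [e2] at a2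
        rw [e1, e2] at a3
        dsimp only at a4 a5
        rw [e1, e2] at a4 a5
        exact ht3 (Nm.mono (l' := Real.log (Real.log Y)) ⟨a1, a2, a3, a4, a5⟩ l2 l1 hδ hδ1
          (by linarith))
    · intro t ht t' ht' he
      obtain ⟨ht1, -⟩ := mem_filter.1 (mem_coe.1 ht)
      obtain ⟨ht1', -⟩ := mem_filter.1 (mem_coe.1 ht')
      rw [mem_Box] at ht1 ht1'
      have e1 : (t.1 + q + 1).toNat = (t'.1 + q + 1).toNat := congrArg Prod.fst he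
      have e2 : (t.2 + q + 1).toNat = (t'.2 + q + 1).toNat := congrArg Prod.snd he
      exact Prod.ext (by omega) (by omega)
  refine (Nat.cast_le.2 h2).trans (h1.trans ?_)
  have h3 : (Y : ℝ) ≤ 3 * T := by exact_mod_cast hYT
  calc ε / 9 * (Y : ℝ) ^ 2 ≤ ε / 9 * (3 * (T : ℝ)) ^ 2 :=
        mul_le_mul_of_nonneg_left (pow_le_pow_left₀ (Nat.cast_nonneg _) h3 2) (by positivity)
    _ = _ := by ring

end Pool.Agent.Q8.QH
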