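import Mathlib
import Pool.Agent.Q8.QH.Ht

/-!
# Generic forms
-/

set_option autoImplicit false

namespace Pool.Agent.Q8.QH

open Finset Pool.Agent.W307.RT

open Classical in
/-- from the coprime pairs, with a factor `D`, to all the pairs of the boxes; a constant depending on
the factor -/
theorem box_ofR {Bad : ℕ → ℕ → ℤ → ℤ → Prop}
    (hmono : ∀ R R' T : ℕ, ∀ A B : ℤ, R ≤ R' → Bad R' T A B → Bad R T A B)
    (h : ∀ D : ℕ, 1 ≤ D → ∀ ε : ℝ, 0 < ε → ∃ R T0 : ℕ,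
    ∀ T : ℕ, T0 ≤ T → (((Box (T / D)).filter (fun t : ℤ × ℤ => IsCoprime t.1 t.2 ∧
      Bad R T (D * t.1) (D * t.2))).card : ℝ) ≤ ε * (T : ℝ) ^ 2) (ε : ℝ) (hε : 0 < ε) :
    ∃ R T0 : ℕ, ∀ T : ℕ, T0 ≤ T →
      (((Box T).filter (fun t : ℤ × ℤ => Bad R T t.1 t.2)).card : ℝ) ≤ ε * (T : ℝ) ^ 2 := by
  obtain ⟨D0, hD0⟩ : ∃ D0 : ℕ, D0 = ⌈27 / ε⌉₊ + 1 := ⟨_, rfl⟩
  have hD01 : 1 ≤ D0 := by omega
  have hD0r : 27 / ε ≤ (D0 : ℝ) := by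
    rw [hD0]
    push_cast
    exact (Nat.le_ceil _).trans (by linarith)
  have hD0p : (0 : ℝ) < D0 := by exact_mod_cast hD01
  choose! ρ g hg using fun D : ℕ => fun hD : 1 ≤ D => h D hD (ε / (3 * D0)) (by positivity)
  obtain ⟨T1, hT1⟩ : ∃ T1 : ℕ, ∀ D ∈ Icc 1 D0, g D ≤ T1 :=
    ⟨∑ D ∈ Icc 1 D0, g D, fun D hD => single_le_sum (f := g) (fun _ _ => Nat.zero_le _) hD⟩
  obtain ⟨R, hR⟩ : ∃ R : ℕ, ∀ D ∈ Icc 1 D0, ρ D ≤ R :=
    ⟨∑ D ∈ Icc 1 D0, ρ D, fun D hD => single_le_sum (f := ρ) (fun _ _ => Nat.zero_le _) hD⟩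
  obtain ⟨T2, hT2⟩ : ∃ T2 : ℕ, T2 = ⌈3 / ε⌉₊ + 1 := ⟨_, rfl⟩
  refine ⟨R, T1 + T2, fun T hT => ?_⟩
  have hTr : 3 / ε ≤ (T : ℝ) := by
    have h1 : (T2 : ℝ) ≤ T := by exact_mod_cast (by omega : T2 ≤ T)
    refine le_trans ?_ h1
    rw [hT2]
    push_cast
    exact (Nat.le_ceil _).trans (by linarith)
  have hT1' : (1 : ℝ) ≤ T := by exact_mod_cast (by omega : 1 ≤ T)
  have hone : (1 : ℝ) ≤ ε / 3 * (T : ℝ) ^ 2 := by
    rw [div_le_iff₀ hε] at hTr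
    nlinarith
  have hsub : (Box T).filter (fun t : ℤ × ℤ => Bad R T t.1 t.2) ⊆
      ({(0, 0)} : Finset (ℤ × ℤ)) ∪ ((Icc 1 D0).biUnion fun D =>
        ((Box (T / D)).filter (fun t : ℤ × ℤ => IsCoprime t.1 t.2 ∧
          Bad (ρ D) T (D * t.1) (D * t.2))).image fun t => ((D : ℤ) * t.1, (D : ℤ) * t.2)) ∪
        (Box T).filter (fun t : ℤ × ℤ => D0 < Int.gcd t.1 t.2) := by
    intro t ht
    obtain ⟨ht1, ht2⟩ := mem_filter.1 ht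
    rw [mem_union, mem_union]
    rcases Nat.eq_zero_or_pos (Int.gcd t.1 t.2) with h0 | h0
    · left; left
      rw [Int.gcd_eq_zero_iff] at h0
      rw [mem_singleton]
      exact Prod.ext h0.1 h0.2
    by_cases hb : D0 < Int.gcd t.1 t.2
    · exact Or.inr (mem_filter.2 ⟨ht1, hb⟩)
    · left; right
      rw [mem_biUnion]
      have a1 := Int.mul_ediv_cancel' (Int.gcd_dvd_left t.1 t.2)
      have a2 := Int.mul_ediv_cancel' (Int.gcd_dvd_right t.1 t.2)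
      rw [mem_Box] at ht1
      have hbd : ∀ x y : ℤ, (Int.gcd t.1 t.2 : ℤ) * x = y → y.natAbs ≤ T →
          x.natAbs ≤ T / Int.gcd t.1 t.2 := by
        intro x y hxy hy
        rw [Nat.le_div_iff_mul_le h0]
        rw [← hxy, Int.natAbs_mul, Int.natAbs_natCast] at hy
        linarith
      have hm : Int.gcd t.1 t.2 ∈ Icc 1 D0 := mem_Icc.2 ⟨h0, by omega⟩
      refine ⟨Int.gcd t.1 t.2, hm, mem_image.2
        ⟨(t.1 / (Int.gcd t.1 t.2 : ℤ), t.2 / (Int.gcd t.1 t.2 : ℤ)), mem_filter.2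
          ⟨mem_Box.2 ⟨hbd _ _ a1 ht1.1, hbd _ _ a2 ht1.2⟩, ?_, ?_⟩, Prod.ext a1 a2⟩⟩
      · exact Int.isCoprime_iff_gcd_eq_one.2 (Int.gcd_ediv_gcd_ediv_gcd h0)
      · change Bad _ T ((Int.gcd t.1 t.2 : ℤ) * (t.1 / (Int.gcd t.1 t.2 : ℤ)))
          ((Int.gcd t.1 t.2 : ℤ) * (t.2 / (Int.gcd t.1 t.2 : ℤ)))
        rw [a1, a2]
        exact hmono _ _ _ _ _ (hR _ hm) ht2
  have h1 := (card_le_card hsub).trans ((card_union_le _ _).trans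
    (Nat.add_le_add_right (card_union_le _ _) _))
  rw [card_singleton] at h1
  have h2 : ((((Icc 1 D0).biUnion fun D =>
        ((Box (T / D)).filter (fun t : ℤ × ℤ => IsCoprime t.1 t.2 ∧
          Bad (ρ D) T (D * t.1) (D * t.2))).image fun t =>
            ((D : ℤ) * t.1, (D : ℤ) * t.2)).card : ℕ) : ℝ) ≤ ε / 3 * (T : ℝ) ^ 2 := by
    have h3 : ((((Icc 1 D0).biUnion fun D =>
        ((Box (T / D)).filter (fun t : ℤ × ℤ => IsCoprime t.1 t.2 ∧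
          Bad (ρ D) T (D * t.1) (D * t.2))).image fun t =>
            ((D : ℤ) * t.1, (D : ℤ) * t.2)).card : ℕ) : ℝ) ≤
            ∑ D ∈ Icc 1 D0, ε / (3 * D0) * (T : ℝ) ^ 2 := by
      refine (Nat.cast_le.2 card_biUnion_le).trans ?_
      rw [Nat.cast_sum]
      refine sum_le_sum fun D hD => ?_
      refine (Nat.cast_le.2 card_image_le).trans ?_
      have hD' := hT1 D hD
      exact hg D (mem_Icc.1 hD).1 T (by omega)
    refine h3.trans (le_of_eq ?_)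
    rw [sum_const, Nat.card_Icc, nsmul_eq_mul, Nat.add_sub_cancel]
    field_simp
  have h3 := big_gcd (T := T) hD01
  have h4 : 9 * (T : ℝ) ^ 2 / D0 ≤ ε / 3 * (T : ℝ) ^ 2 := by
    rw [div_le_iff₀ hD0p]
    rw [div_le_iff₀ hε] at hD0r
    have : 0 ≤ (T : ℝ) ^ 2 := by positivity
    nlinarith
  have h5 := (Nat.cast_le (α := ℝ)).2 h1
  rw [Nat.cast_add, Nat.cast_add, Nat.cast_one] at h5
  linarith

/-- the lower bound of the number of the curves -/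
def Low (Fm : ℕ → Finset (ℤ × ℤ)) : Prop := ∃ (c : ℝ) (C T0 : ℕ), 0 < c ∧ ∀ T H : ℕ, T0 ≤ T →
  C * T ^ 6 ≤ H → c * (T : ℝ) ^ 2 ≤ ((Fm H).card : ℝ)

lemma gen_cmp {Fm : ℕ → Finset (ℤ × ℤ)} (hL : Low Fm) : ∃ K : ℝ, 0 < K ∧ ∀ H : ℕ,
    (Fm H).Nonempty → ((tau H : ℕ) : ℝ) ^ 2 ≤ K * ((Fm H).card : ℝ) := by
  obtain ⟨c, C, T0, hc, hlow⟩ := hL
  obtain ⟨k, hk⟩ : ∃ k : ℕ, k = 16 * C + 1 := ⟨_, rfl⟩
  have hk1 : 1 ≤ k := by omega
  have hkk : 16 * C ≤ k ^ 6 := le_trans (by omega) (Nat.le_self_pow (n := 6) (by norm_num) k)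
  have hkr : (1 : ℝ) ≤ k := by exact_mod_cast hk1
  refine ⟨4 * (k : ℝ) ^ 2 / c + ((k * (T0 + 1) : ℕ) : ℝ) ^ 2, by positivity, fun H hne => ?_⟩
  have hcard : (1 : ℝ) ≤ ((Fm H).card : ℝ) := by exact_mod_cast hne.card_pos
  rcases Nat.lt_or_ge (tau H) (k * (T0 + 1) + 1) with h1 | h1
  · have h2 : ((tau H : ℕ) : ℝ) ≤ ((k * (T0 + 1) : ℕ) : ℝ) := by exact_mod_cast (by omega)
    have h3 : ((tau H : ℕ) : ℝ) ^ 2 ≤ ((k * (T0 + 1) : ℕ) : ℝ) ^ 2 :=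
      pow_le_pow_left₀ (Nat.cast_nonneg _) h2 2
    have h4 : (0 : ℝ) ≤ 4 * (k : ℝ) ^ 2 / c := by positivity
    have h5 : (0 : ℝ) ≤ ((k * (T0 + 1) : ℕ) : ℝ) ^ 2 := by positivity
    nlinarith
  · obtain ⟨t, ht⟩ : ∃ t : ℕ, t = tau H - 1 := ⟨_, rfl⟩
    have ht1 : tau H = t + 1 := by omega
    obtain ⟨T', hT'⟩ : ∃ T' : ℕ, T' = t / k := ⟨_, rfl⟩
    have hT'0 : T0 + 1 ≤ T' := by
      rw [hT', Nat.le_div_iff_mul_le (by omega)]
      have : (T0 + 1) * k = k * (T0 + 1) := by ring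
      omega
    have h6 := tau_min (H := H) (t := t) (by omega)
    have h7 : C * T' ^ 6 ≤ H := by
      have h8 : T' * k ≤ t := by
        rw [hT']
        exact Nat.div_mul_le_self t k
      have h9 : (T' * k) ^ 6 < 16 * H := lt_of_le_of_lt (Nat.pow_le_pow_left h8 6) h6
      rw [mul_pow] at h9
      have h10 : 16 * (C * T' ^ 6) ≤ T' ^ 6 * k ^ 6 := by
        calc 16 * (C * T' ^ 6) = T' ^ 6 * (16 * C) := by ring
          _ ≤ T' ^ 6 * k ^ 6 := Nat.mul_le_mul_left _ hkk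
      omega
    have h8 := hlow T' H (by omega) h7
    have h9 : t < k * (T' + 1) := by
      rw [hT']
      have := Nat.lt_mul_div_succ t (by omega : 0 < k)
      exact this
    have h10 : tau H ≤ 2 * (k * T') := by
      have : k * (T' + 1) = k * T' + k := by ring
      have h11 : k * 1 ≤ k * T' := Nat.mul_le_mul_left _ (by omega)
      omega
    have h11 : ((tau H : ℕ) : ℝ) ≤ 2 * ((k : ℝ) * T') := by exact_mod_cast h10
    have h12 : ((tau H : ℕ) : ℝ) ^ 2 ≤ (2 * ((k : ℝ) * T')) ^ 2 :=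
      pow_le_pow_left₀ (Nat.cast_nonneg _) h11 2
    have h13 : (2 * ((k : ℝ) * T')) ^ 2 ≤ 4 * (k : ℝ) ^ 2 / c * ((Fm H).card : ℝ) := by
      have h14 : (T' : ℝ) ^ 2 ≤ ((Fm H).card : ℝ) / c := by
        rw [le_div_iff₀ hc]
        linarith
      calc (2 * ((k : ℝ) * T')) ^ 2 = 4 * (k : ℝ) ^ 2 * (T' : ℝ) ^ 2 := by ring
        _ ≤ 4 * (k : ℝ) ^ 2 * (((Fm H).card : ℝ) / c) :=
            mul_le_mul_of_nonneg_left h14 (by positivity)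
        _ = _ := by ring
    have h14 : 0 ≤ ((k * (T0 + 1) : ℕ) : ℝ) ^ 2 * ((Fm H).card : ℝ) :=
      mul_nonneg (sq_nonneg _) (Nat.cast_nonneg _)
    rw [add_mul]
    linarith

open Classical in
/-- almost all the members of a family with a parametrisation by pairs, for all the parameters -/
theorem gen_ae {Fm : ℕ → Finset (ℤ × ℤ)} (hL : Low Fm) {Rl : ℤ × ℤ → ℤ → ℤ → Prop} {k : ℕ}
    (hk : 1 ≤ k) (hbd : ∀ H : ℕ, ∀ c ∈ Fm H, ∀ A B : ℤ, Rl c A B →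
      A.natAbs ≤ k * tau H ∧ B.natAbs ≤ k * tau H)
    (hinj : ∀ c c' : ℤ × ℤ, ∀ A B : ℤ, Rl c A B → Rl c' A B → c = c') :
    ∃ κ : ℝ, 0 < κ ∧ ∀ (Bad : ℕ → ℤ → ℤ → Prop) (ε : ℝ), 0 < ε → (∃ T0 : ℕ, ∀ T : ℕ, T0 ≤ T →
      (((Box T).filter (fun t : ℤ × ℤ => Bad T t.1 t.2)).card : ℝ) ≤ ε * κ * (T : ℝ) ^ 2) →
    ∃ H0 : ℕ, ∀ H : ℕ, H0 ≤ H →
      (((Fm H).filter (fun c : ℤ × ℤ => ∃ A B : ℤ, Rl c A B ∧ Bad (k * tau H) A B)).card : ℝ) ≤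
        ε * ((Fm H).card : ℝ) := by
  obtain ⟨K, hK, hcmp⟩ := gen_cmp hL
  have hkr : (0 : ℝ) < k := by exact_mod_cast hk
  refine ⟨1 / (K * (k : ℝ) ^ 2), by positivity, fun Bad ε hε h => ?_⟩
  obtain ⟨T0, hT0⟩ := h
  refine ⟨T0 ^ 6, fun H hH => ?_⟩
  rcases (Fm H).eq_empty_or_nonempty with h0 | h0
  · rw [h0]
    simp
  have hT : T0 ≤ tau H := by
    by_contra hcon
    push Not at hcon
    have h1 : tau H ^ 6 < T0 ^ 6 := Nat.pow_lt_pow_left hcon (by norm_num)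
    have h2 := tau_spec H
    omega
  have h1 := hT0 (k * tau H) (hT.trans (Nat.le_mul_of_pos_left _ hk))
  obtain ⟨f, hf⟩ : ∃ f : ℤ × ℤ → ℤ × ℤ, ∀ c ∈ (Fm H).filter (fun c : ℤ × ℤ =>
      ∃ A B : ℤ, Rl c A B ∧ Bad (k * tau H) A B), Rl c (f c).1 (f c).2 ∧
        Bad (k * tau H) (f c).1 (f c).2 := by
    have : ∀ c : ℤ × ℤ, ∃ t : ℤ × ℤ, c ∈ (Fm H).filter (fun c : ℤ × ℤ =>
      ∃ A B : ℤ, Rl c A B ∧ Bad (k * tau H) A B) → Rl c t.1 t.2 ∧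
        Bad (k * tau H) t.1 t.2 := by
      intro c
      by_cases hc : c ∈ (Fm H).filter (fun c : ℤ × ℤ =>
          ∃ A B : ℤ, Rl c A B ∧ Bad (k * tau H) A B)
      · obtain ⟨-, A, B, h2, h3⟩ := mem_filter.1 hc
        exact ⟨(A, B), fun _ => ⟨h2, h3⟩⟩
      · exact ⟨(0, 0), fun h2 => absurd h2 hc⟩
    choose f hf using this
    exact ⟨f, hf⟩
  have h2 : ((Fm H).filter (fun c : ℤ × ℤ => ∃ A B : ℤ, Rl c A B ∧
      Bad (k * tau H) A B)).card ≤ ((Box (k * tau H)).filter (fun t : ℤ × ℤ =>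
        Bad (k * tau H) t.1 t.2)).card := by
    apply card_le_card_of_injOn f
    · intro c hc
      obtain ⟨h3, h4⟩ := hf c (mem_coe.1 hc)
      obtain ⟨h5, -⟩ := mem_filter.1 (mem_coe.1 hc)
      rw [mem_coe, mem_filter, mem_Box]
      exact ⟨hbd H c h5 _ _ h3, h4⟩
    · intro c hc c' hc' he
      obtain ⟨h3, -⟩ := hf c (mem_coe.1 hc)
      obtain ⟨h4, -⟩ := hf c' (mem_coe.1 hc')
      rw [he] at h3
      exact hinj _ _ _ _ h3 h4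
  have h3 := hcmp H h0
  calc (((Fm H).filter (fun c : ℤ × ℤ => ∃ A B : ℤ, Rl c A B ∧
      Bad (k * tau H) A B)).card : ℝ) ≤ _ := Nat.cast_le.2 h2
    _ ≤ ε * (1 / (K * (k : ℝ) ^ 2)) * ((k * tau H : ℕ) : ℝ) ^ 2 := h1
    _ = ε / K * ((tau H : ℕ) : ℝ) ^ 2 := by
        rw [Nat.cast_mul]
        field_simp
    _ ≤ ε / K * (K * ((Fm H).card : ℝ)) := mul_le_mul_of_nonneg_left h3 (by positivity)
    _ = _ := by field_simp

end Pool.Agent.Q8.QH
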