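import Mathlib
import Pool.Agent.Q8.QH.Gen
import Pool.Agent.Q8.FI.Cnt
import Pool.Agent.Q8.NS.Pairs
import Pool.Agent.Q8.TP.Tr
import Pool.Agent.Q243.PR.InfFour

/-!
# The curves with a rational cyclic subgroup of order four, by height: Selmer groups
-/

set_option autoImplicit false

namespace Pool.Agent.Q8.QH

open Finset Pool.Agent.W307.RT

open Pool.Agent.Q8.FI (F4 cA cB)

open Pool.Agent.Q8.NS (OK2 one_root)

open Pool.Agent.TH841.SH.D (rk ShaTor)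

open Pool.Agent.TH841.LS (WI)

open Pool.Agent.Q243.PR (SelInf SelInfTor)

lemma ok_mono {R : ℕ} {δ l l' : ℝ} {A B : ℤ} (h : OK2 R (3 / 2) (δ / 2) l' A B) (h1 : l ≤ l' + 2)
    (h2 : l' ≤ l + 2) (hδ : 0 < δ) (hδ1 : δ ≤ 1) (h3 : 8 ≤ δ * l) : OK2 R (3 / 2) δ l A B := by
  obtain ⟨a1, a2, a3, b1, b2, b3, b4, b5, b6, b7, b8⟩ := h
  refine ⟨a1, a2, a3, b1, b2, b3, b4, b5, le_trans ?_ b6, b7.trans ?_, b8⟩
  · nlinarith
  · nlinarith

open Classical in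
theorem box_ok (δ : ℝ) (hδ : 0 < δ) (hδ1 : δ ≤ 1) (ε : ℝ) (hε : 0 < ε) :
    ∃ R T0 : ℕ, ∀ T : ℕ, T0 ≤ T → (((Box T).filter (fun t : ℤ × ℤ =>
      ¬ OK2 R (3 / 2) δ (Real.log (Real.log T)) t.1 t.2)).card : ℝ) ≤ ε * (T : ℝ) ^ 2 := by
  suffices hs : ∀ D : ℕ, 1 ≤ D → ∀ ε : ℝ, 0 < ε → ∃ R T0 : ℕ,
      ∀ T : ℕ, T0 ≤ T → (((Box (T / D)).filter (fun t : ℤ × ℤ => IsCoprime t.1 t.2 ∧
      ¬ OK2 R (3 / 2) δ (Real.log (Real.log T)) (D * t.1) (D * t.2))).card : ℝ) ≤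
        ε * (T : ℝ) ^ 2 by
    obtain ⟨R, T0, h0⟩ := box_ofR (Bad := fun R T A B => ¬ OK2 R (3 / 2) δ
      (Real.log (Real.log T)) A B)
      (fun R R' T A B hR h1 h2 => h1 (h2.mono hR))
      (fun D hD ε hε => by
        obtain ⟨R, T0, h0⟩ := hs D hD ε hε
        refine ⟨R, T0, fun T hT => ?_⟩
        have := h0 T hT
        convert this) ε hε
    refine ⟨R, T0, fun T hT => ?_⟩
    have := h0 T hT
    convert this
  intro D hD ε hε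
  obtain ⟨R, X0, h⟩ := one_root (D : ℤ) (by exact_mod_cast (by omega : D ≠ 0)) (δ / 2) (ε / 9) 1
    (by positivity) (by positivity)
  obtain ⟨M, hM⟩ := Pool.Agent.TH841.LS.big_loglog δ 8 hδ
  refine ⟨R, (X0 + D ^ 2 + 6) * D + M + 9, fun T hT => ?_⟩
  obtain ⟨q, hq⟩ : ∃ q : ℕ, q = T / D := ⟨_, rfl⟩
  obtain ⟨Y, hY⟩ : ∃ Y : ℕ, Y = 2 * q + 1 := ⟨_, rfl⟩
  have hq1 : X0 + D ^ 2 + 6 ≤ q := by
    rw [hq, Nat.le_div_iff_mul_le (by omega)]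
    omega
  have hqT : q ≤ T := by
    rw [hq]
    exact Nat.div_le_self _ _
  have hTq : T < D * (q + 1) := by
    rw [hq]
    exact Nat.lt_mul_div_succ T (by omega)
  have h1 := h (-(q : ℤ) - 1) (-(q : ℤ) - 1) Y (by omega) (by rw [pow_one]; omega)
    (by rw [pow_one]; omega)
  have hYT : Y ≤ 3 * T := by omega
  have hYT2 : Y ≤ T ^ 2 := by
    calc Y ≤ 3 * T := hYT
      _ ≤ T * T := Nat.mul_le_mul_right _ (by omega)
      _ = T ^ 2 := by ring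
  have hTY2 : T ≤ Y ^ 2 := by
    calc T ≤ D * (q + 1) := hTq.le
      _ ≤ (q + 1) * (q + 1) := Nat.mul_le_mul_right _ (by nlinarith)
      _ ≤ Y * Y := Nat.mul_le_mul (by omega) (by omega)
      _ = Y ^ 2 := by ring
  have l1 := lglg_le (k := 2) (by omega : 3 ≤ T) (by omega : 3 ≤ Y) (by norm_num) hYT2
  have l2 := lglg_le (k := 2) (by omega : 3 ≤ Y) (by omega : 3 ≤ T) (by norm_num) hTY2
  have l3 := hM T (by omega)
  rw [← hq]
  have h2 : ((Box q).filter (fun t : ℤ × ℤ => IsCoprime t.1 t.2 ∧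
      ¬ OK2 R (3 / 2) δ (Real.log (Real.log T)) ((D : ℤ) * t.1) ((D : ℤ) * t.2))).card ≤
      ((Icc 1 Y ×ˢ Icc 1 Y).filter (fun t : ℕ × ℕ =>
        IsCoprime ((-(q : ℤ) - 1) + (t.1 : ℤ)) ((-(q : ℤ) - 1) + (t.2 : ℤ)) ∧
        ¬ OK2 R (3 / 2) (δ / 2) (Real.log (Real.log Y)) ((D : ℤ) * ((-(q : ℤ) - 1) + (t.1 : ℤ)))
          ((D : ℤ) * ((-(q : ℤ) - 1) + (t.2 : ℤ))))).card := by
    apply card_le_card_of_injOn (fun t : ℤ × ℤ => ((t.1 + q + 1).toNat, (t.2 + q + 1).toNat))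
    · intro t ht
      obtain ⟨ht1, ht2, ht3⟩ := mem_filter.1 (mem_coe.1 ht)
      rw [mem_Box] at ht1
      have e1 : (-(q : ℤ) - 1) + (((t.1 + q + 1).toNat : ℕ) : ℤ) = t.1 := by omega
      have e2 : (-(q : ℤ) - 1) + (((t.2 + q + 1).toNat : ℕ) : ℤ) = t.2 := by omega
      rw [mem_coe, mem_filter, mem_product, mem_Icc, mem_Icc]
      refine ⟨by dsimp only; omega, ?_, fun hall => ?_⟩
      · change IsCoprime ((-(q : ℤ) - 1) + (((t.1 + q + 1).toNat : ℕ) : ℤ))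
          ((-(q : ℤ) - 1) + (((t.2 + q + 1).toNat : ℕ) : ℤ))
        rw [e1, e2]
        exact ht2
      · change OK2 R (3 / 2) (δ / 2) (Real.log (Real.log Y))
          ((D : ℤ) * ((-(q : ℤ) - 1) + (((t.1 + q + 1).toNat : ℕ) : ℤ)))
          ((D : ℤ) * ((-(q : ℤ) - 1) + (((t.2 + q + 1).toNat : ℕ) : ℤ))) at hall
        rw [e1, e2] at hall
        exact ht3 (ok_mono hall l2 l1 hδ hδ1 l3)
    · intro t ht t' ht' he
      obtain ⟨ht1, -⟩ := mem_filter.1 (mem_coe.1 ht)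
      obtain ⟨ht1', -⟩ := mem_filter.1 (mem_coe.1 ht')
      rw [mem_Box] at ht1 ht1'
      have e1 : (t.1 + q + 1).toNat = (t'.1 + q + 1).toNat := congrArg Prod.fst he
      have e2 : (t.2 + q + 1).toNat = (t'.2 + q + 1).toNat := congrArg Prod.snd he
      exact Prod.ext (by omega) (by omega)
  refine (Nat.cast_le.2 h2).trans (h1.trans ?_)
  have h3 : (Y : ℝ) ≤ 3 * T := by exact_mod_cast hYT
  calc ε / 9 * (Y : ℝ) ^ 2 ≤ ε / 9 * (3 * (T : ℝ)) ^ 2 :=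
        mul_le_mul_of_nonneg_left (pow_le_pow_left₀ (Nat.cast_nonneg _) h3 2) (by positivity)
    _ = _ := by ring

/-! ### The family -/

lemma low4 : Low F4 := by
  refine ⟨1 / 4, 108, 4, by norm_num, fun T H hT hH => ?_⟩
  exact Pool.Agent.Q8.FI.low hT hH

lemma low_tendsto {Fm : ℕ → Finset (ℤ × ℤ)} (hL : Low Fm) :
    Filter.Tendsto (fun H : ℕ => (Fm H).card) Filter.atTop Filter.atTop := by
  obtain ⟨c, C, T0, hc, h⟩ := hL
  rw [Filter.tendsto_atTop_atTop]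
  intro n
  obtain ⟨T, hT⟩ : ∃ T : ℕ, T = T0 + ⌈(n : ℝ) / c⌉₊ + 1 := ⟨_, rfl⟩
  refine ⟨C * T ^ 6, fun H hH => ?_⟩
  have h1 := h T H (by omega) hH
  have h2 : (n : ℝ) / c ≤ T := by
    refine (Nat.le_ceil _).trans ?_
    exact_mod_cast (by omega : ⌈(n : ℝ) / c⌉₊ ≤ T)
  have h3 : (1 : ℝ) ≤ T := by exact_mod_cast (by omega : 1 ≤ T)
  rw [div_le_iff₀ hc] at h2
  have h4 : (n : ℝ) ≤ ((Fm H).card : ℝ) := by
    refine le_trans ?_ h1
    nlinarith [mul_pos hc (by linarith : (0 : ℝ) < T)]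
  exact_mod_cast h4

/-- the parameters -/
def Rl4 (c : ℤ × ℤ) (A B : ℤ) : Prop :=
  ∃ t s : ℤ, c.1 = cA t s ∧ c.2 = cB t s ∧ A = 3 * t + 2 * s ∧ B = 3 * t - 2 * s

lemma rl4_inj (c c' : ℤ × ℤ) (A B : ℤ) (h : Rl4 c A B) (h' : Rl4 c' A B) : c = c' := by
  obtain ⟨t, s, e1, e2, e3, e4⟩ := h
  obtain ⟨t', s', e1', e2', e3', e4'⟩ := h'
  have h1 : t = t' := by omega
  have h2 : s = s' := by omega
  rw [h1, h2] at e1 e2
  exact Prod.ext (e1.trans e1'.symm) (e2.trans e2'.symm)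

lemma nat6 {x : ℤ} {T k H : ℕ} (h : x ^ 6 ≤ k * H) (h1 : k * H ≤ T ^ 6) : x.natAbs ≤ T := by
  by_contra hcon
  push Not at hcon
  have h2 : T ^ 6 < x.natAbs ^ 6 := Nat.pow_lt_pow_left hcon (by norm_num)
  have h3 : ((x.natAbs ^ 6 : ℕ) : ℤ) = x ^ 6 := by
    push_cast
    rw [show (6 : ℕ) = 2 * 3 from rfl, pow_mul, pow_mul, sq_abs]
  have h4 : ((x.natAbs ^ 6 : ℕ) : ℤ) ≤ ((k * H : ℕ) : ℤ) := by
    rw [h3]
    push_cast
    exact h
  have h5 : x.natAbs ^ 6 ≤ k * H := by exact_mod_cast h4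
  omega

lemma rl4_bd (H : ℕ) (c : ℤ × ℤ) (hc : c ∈ F4 H) (A B : ℤ) (h : Rl4 c A B) :
    (A.natAbs ≤ 7 * tau H ∧ B.natAbs ≤ 7 * tau H) ∧ A ≠ 0 ∧ B ≠ 0 ∧ A ≠ B := by
  classical
  obtain ⟨t, s, e1, e2, e3, e4⟩ := h
  unfold F4 at hc
  obtain ⟨-, hD, hA, hB, -, -⟩ := mem_filter.1 hc
  have h1 : t ^ 3 + c.1 * t + c.2 = 0 := by
    rw [e1, e2]
    unfold cA cB
    ring
  have h2 : 3 * t ^ 2 + c.1 = s ^ 2 := by
    rw [e1]
    unfold cA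
    ring
  have hD' : s ^ 4 * ((2 * s - 3 * t) * (2 * s + 3 * t)) ≠ 0 := by
    rw [← Pool.Agent.Q8.FI.disc_c, ← e1, ← e2]
    exact hD
  have ht := Pool.Agent.Q8.FI.root_le hA hB h1
  have hs6 : s ^ 6 ≤ 217 * H := by
    have h3 : s ^ 2 ≤ 3 * t ^ 2 + |c.1| := by
      rw [← h2]
      have := le_abs_self c.1
      linarith
    have h4 : (s ^ 2) ^ 3 ≤ (3 * t ^ 2 + |c.1|) ^ 3 := pow_le_pow_left₀ (by positivity) h3 3
    have h5 := Pool.Agent.Q8.FI.cube_le (x := 3 * t ^ 2) (y := |c.1|) (by positivity)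
      (abs_nonneg _)
    have e3 : (s ^ 2) ^ 3 = s ^ 6 := by ring
    have e4 : (3 * t ^ 2) ^ 3 = 27 * t ^ 6 := by ring
    rw [e3] at h4
    rw [e4] at h5
    linarith
  have hspec := tau_spec H
  have k1 : t.natAbs ≤ tau H := nat6 (k := 2) (H := H) (by exact_mod_cast ht) (by omega)
  have k2 : s.natAbs ≤ 2 * tau H := nat6 (k := 217) (H := H) (by exact_mod_cast hs6) (by
    have : (2 * tau H) ^ 6 = 64 * tau H ^ 6 := by ring
    rw [this]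
    omega)
  refine ⟨⟨by omega, by omega⟩, ?_, ?_, ?_⟩
  · intro h0
    apply hD'
    have : 2 * s + 3 * t = 0 := by omega
    rw [this]
    ring
  · intro h0
    apply hD'
    have : 2 * s - 3 * t = 0 := by omega
    rw [this]
    ring
  · intro h0
    apply hD'
    have : s = 0 := by omega
    rw [this]
    ring

lemma rl4_ex {H : ℕ} {c : ℤ × ℤ} (hc : c ∈ F4 H) : ∃ t s : ℤ, c.1 = cA t s ∧ c.2 = cB t s := by
  obtain ⟨t, s, e1, e2, -⟩ := Pool.Agent.Q8.FI.par_of hc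
  exact ⟨t, s, e1, e2⟩

open Classical in
/-- **almost all the curves with a rational cyclic subgroup of order four** -/
theorem four_ok (δ : ℝ) (hδ : 0 < δ) (hδ1 : δ ≤ 1) (ε : ℝ) (hε : 0 < ε) :
    ∃ R H0 : ℕ, ∀ H : ℕ, H0 ≤ H → (((F4 H).filter (fun c : ℤ × ℤ => ¬ ∀ A B : ℤ, Rl4 c A B →
      OK2 R (3 / 2) δ (Real.log (Real.log H)) A B)).card : ℝ) ≤ ε * ((F4 H).card : ℝ) := by
  obtain ⟨κ, hκ, hgen⟩ := gen_ae (k := 7) low4 (by norm_num)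
    (fun H c hc A B h => (rl4_bd H c hc A B h).1) rl4_inj
  obtain ⟨R, hR⟩ := box_ok (δ / 2) (by positivity) (by linarith) (ε * κ) (by positivity)
  obtain ⟨H1, hH1⟩ := hgen (fun T A B => ¬ OK2 R (3 / 2) (δ / 2) (Real.log (Real.log T)) A B) ε hε
    (by
      obtain ⟨T0, hT0⟩ := hR
      refine ⟨T0, fun T hT => ?_⟩
      have := hT0 T hT
      convert this)
  obtain ⟨M, hM⟩ := Pool.Agent.TH841.LS.big_loglog δ 8 hδ
  refine ⟨R, H1 + M + 7 ^ 6, fun H hH => ?_⟩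
  refine le_trans ?_ (hH1 H (by omega))
  rw [Nat.cast_le]
  refine card_le_card fun c hc => ?_
  obtain ⟨hc1, hc2⟩ := mem_filter.1 hc
  refine mem_filter.2 ⟨hc1, ?_⟩
  by_contra hcon
  push Not at hcon
  apply hc2
  intro A B hr
  have ht6 := tau_spec H
  have hT3 : 7 ≤ tau H := by
    by_contra hcon
    push Not at hcon
    have h1 : tau H ^ 6 < 7 ^ 6 := Nat.pow_lt_pow_left hcon (by norm_num)
    omega
  have hTH : tau H ≤ H := tau_le (by omega)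
  have m1 : 7 * tau H ≤ H ^ 2 := by
    calc 7 * tau H ≤ H * H := Nat.mul_le_mul (by omega) hTH
      _ = H ^ 2 := by ring
  have m2 : H ≤ (7 * tau H) ^ 6 := by
    have h1 : tau H ^ 6 ≤ (7 * tau H) ^ 6 := Nat.pow_le_pow_left (by omega) 6
    omega
  exact ok_mono (hcon A B hr) (lglg_le (k := 6) (by omega) (by omega) (by norm_num) m2)
    (lglg_le (k := 2) (by omega) (by omega) (by norm_num) m1) hδ hδ1 (hM H (by omega))

/-- the curve `y² = x³ + c.1 x + c.2` -/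
def Ec (c : ℤ × ℤ) : WeierstrassCurve ℚ := ⟨0, 0, 0, (c.1 : ℚ), (c.2 : ℚ)⟩

lemma vr4 {c : ℤ × ℤ} {t s : ℤ} (e1 : c.1 = cA t s) (e2 : c.2 = cB t s) :
    Pool.Agent.Y700.VR (Ec c) (WI (3 * t + 2 * s) (3 * t - 2 * s)) (1 / 2) (t : ℚ) 0 0 where
  u0 := by norm_num
  e1 := by unfold Ec WI; ring
  e2 := by
    unfold Ec WI
    push_cast
    ring
  e3 := by unfold Ec WI; ring
  e4 := by
    unfold Ec WI
    rw [e1]
    unfold cA
    push_cast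
    ring
  e6 := by
    unfold Ec WI
    rw [e1, e2]
    unfold cA cB
    push_cast
    ring

lemma wi_disc {A B : ℤ} (hA : A ≠ 0) (hB : B ≠ 0) (hAB : A ≠ B) : (WI A B).Δ ≠ 0 := by
  have h1 : (A : ℚ) ≠ 0 := by exact_mod_cast hA
  have h2 : (B : ℚ) ≠ 0 := by exact_mod_cast hB
  have h3 : (A : ℚ) - B ≠ 0 := by
    rw [sub_ne_zero]
    exact_mod_cast hAB
  have e : (WI A B).Δ = 256 * ((A : ℚ) - B) ^ 4 * (A * B) := by
    unfold WI
    simp only [WeierstrassCurve.Δ, WeierstrassCurve.b₂, WeierstrassCurve.b₄, WeierstrassCurve.b₆,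
      WeierstrassCurve.b₈]
    ring
  rw [e]
  positivity

/-- the properties of the curve -/
def OKc (R : ℕ) (δ l : ℝ) (c : ℤ × ℤ) : Prop :=
  rk (Ec c) ≤ R ∧ (∀ j : ℕ, Finite (ShaTor (Ec c) (2 ^ j))) ∧
    (∀ j : ℕ, Finite (SelInfTor (Ec c) j)) ∧
    |Real.logb 2 (Nat.card (ShaTor (Ec c) 2)) - 3 / 2 * l| ≤ δ * l ∧
    |Real.logb 2 (Nat.card (SelInfTor (Ec c) 1)) - 3 / 2 * l| ≤ δ * l ∧
    (∀ j : ℕ, 1 ≤ j → Nat.card (ShaTor (Ec c) (2 ^ j)) ≤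
      2 ^ (R * j) * Nat.card (ShaTor (Ec c) 2)) ∧
    ∀ j : ℕ, 1 ≤ j → Nat.card (SelInfTor (Ec c) j) ≤
      2 ^ (R * j) * Nat.card (SelInfTor (Ec c) 1)

lemma okc_of {R : ℕ} {δ l : ℝ} {c : ℤ × ℤ} {t s : ℤ} (e1 : c.1 = cA t s) (e2 : c.2 = cB t s)
    (hl : (R : ℝ) + 2 ≤ δ / 2 * l)
    (h : OK2 R (3 / 2) (δ / 2) l (3 * t + 2 * s) (3 * t - 2 * s)) : OKc (2 * R + 2) δ l c := by
  obtain ⟨hA, hB, hAB, -, -, -, b4, b5, b6, b7, b8⟩ := h
  have hv := vr4 e1 e2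
  have hD := wi_disc hA hB hAB
  set A := 3 * t + 2 * s with hAdef
  set B := 3 * t - 2 * s with hBdef
  let N := Pool.Agent.Q8.TP.nat2 hv hD
  have hrk : rk (WI A B) = rk (Ec c) := Pool.Agent.Q8.TP.rk_eq hv hD
  have hsh : ∀ n : ℕ, (Finite (ShaTor (WI A B) n) ↔ Finite (ShaTor (Ec c) n)) ∧
      Nat.card (ShaTor (WI A B) n) = Nat.card (ShaTor (Ec c) n) := fun n =>
    Pool.Agent.Q8.TP.tor_card N.sha n
  have hin : ∀ j : ℕ, (Finite (SelInfTor (WI A B) j) ↔ Finite (SelInfTor (Ec c) j)) ∧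
      Nat.card (SelInfTor (WI A B) j) = Nat.card (SelInfTor (Ec c) j) := fun j =>
    Pool.Agent.Q8.TP.tor_card N.inf (2 ^ j)
  have q : ∀ j : ℕ, Finite (SelInfTor (WI A B) j) ∧
      Nat.card (ShaTor (WI A B) (2 ^ j)) ≤ Nat.card (SelInfTor (WI A B) j) ∧
      Nat.card (SelInfTor (WI A B) j) ≤ 2 ^ ((rk (WI A B) + 2) * j) *
        Nat.card (ShaTor (WI A B) (2 ^ j)) := fun j =>
    Pool.Agent.Q243.PR.inf_quot hA hB hAB j (b5 j)
  have q1 := q 1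
  rw [pow_one] at q1
  have hl0 : 0 ≤ δ / 2 * l := by
    have : (0 : ℝ) ≤ R := Nat.cast_nonneg _
    linarith
  have hab : |Real.logb 2 (Nat.card (ShaTor (WI A B) 2)) - 3 / 2 * l| ≤ δ / 2 * l := by
    rw [abs_le]
    constructor <;> linarith
  have hSel1 : |Real.logb 2 (Nat.card (SelInfTor (WI A B) 1)) - 3 / 2 * l| ≤ δ * l := by
    have : Nonempty (ShaTor (WI A B) 2) := ⟨⟨0, smul_zero _⟩⟩
    have f2 : Finite (ShaTor (WI A B) 2) := by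
      have := b5 1
      rwa [pow_one] at this
    exact Pool.Agent.Q243.PR.log_of' q1.2.1 q1.2.2 Nat.card_pos b4 hab hl
  refine ⟨by rw [← hrk]; omega, fun j => (hsh (2 ^ j)).1.1 (b5 j), fun j => (hin j).1.1 (q j).1,
    ?_, ?_, fun j hj => ?_, fun j hj => ?_⟩
  · rw [← (hsh 2).2]
    linarith
  · rw [← (hin 1).2]
    exact hSel1
  · rw [← (hsh (2 ^ j)).2, ← (hsh 2).2]
    exact (b8 j hj).trans (Nat.mul_le_mul_right _ (Nat.pow_le_pow_right (by norm_num)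
      (Nat.mul_le_mul_right _ (by omega))))
  · rw [← (hin j).2, ← (hin 1).2]
    exact Pool.Agent.Q243.PR.tower_of q1.2.1 (q j).2.2 (b8 j hj) b4

open Classical in
theorem four_final (δ : ℝ) (hδ : 0 < δ) (ε : ℝ) (hε : 0 < ε) :
    ∃ R H0 : ℕ, ∀ H : ℕ, H0 ≤ H → (((F4 H).filter (fun c : ℤ × ℤ =>
      ¬ OKc R δ (Real.log (Real.log H)) c)).card : ℝ) ≤ ε * ((F4 H).card : ℝ) := by
  obtain ⟨δ', hδ'⟩ : ∃ δ' : ℝ, δ' = min δ 1 := ⟨_, rfl⟩
  have d0 : 0 < δ' := by rw [hδ']; exact lt_min hδ one_pos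
  have d1 : δ' ≤ 1 := by rw [hδ']; exact min_le_right _ _
  have d2 : δ' ≤ δ := by rw [hδ']; exact min_le_left _ _
  obtain ⟨R, H1, h1⟩ := four_ok (δ' / 2) (by positivity) (by linarith) ε hε
  obtain ⟨M, hM⟩ := Pool.Agent.TH841.LS.big_loglog (δ' / 2) ((R : ℝ) + 2) (by positivity)
  refine ⟨2 * R + 2, H1 + M, fun H hH => ?_⟩
  refine le_trans ?_ (h1 H (by omega))
  rw [Nat.cast_le]
  refine card_le_card fun c hc => ?_
  obtain ⟨hc1, hc2⟩ := mem_filter.1 hc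
  refine mem_filter.2 ⟨hc1, fun hcon => hc2 ?_⟩
  obtain ⟨t, s, e1, e2⟩ := rl4_ex hc1
  have hm := hM H (by omega)
  obtain ⟨a1, a2, a3, a4, a5, a6, a7⟩ := okc_of e1 e2 hm (hcon _ _ ⟨t, s, e1, e2, rfl, rfl⟩)
  have hl : 0 ≤ Real.log (Real.log H) := by
    by_contra hcon
    push Not at hcon
    have : (0 : ℝ) ≤ R := Nat.cast_nonneg _
    nlinarith
  have h3 : δ' * Real.log (Real.log H) ≤ δ * Real.log (Real.log H) :=
    mul_le_mul_of_nonneg_right d2 hl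
  exact ⟨a1, a2, a3, a4.trans h3, a5.trans h3, a6, a7⟩

open Classical in
/-- every isomorphism class has density zero -/
theorem four_zero (T : Type) [AddCommGroup T] (_hT : Finite {x : T // x + x = 0}) (ε : ℝ)
    (hε : 0 < ε) : ∃ H0 : ℕ, ∀ H : ℕ, H0 ≤ H → (((F4 H).filter (fun c : ℤ × ℤ =>
      Nonempty (SelInf (Ec c) ≃+ T))).card : ℝ) ≤ ε * ((F4 H).card : ℝ) := by
  obtain ⟨R, H1, h1⟩ := four_final 1 one_pos ε hε
  obtain ⟨M, hM⟩ := Pool.Agent.TH841.LS.big_loglog (1 / 2)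
    (Real.logb 2 (Nat.card {x : T // x + x = 0}) + 1) (by norm_num)
  refine ⟨H1 + M, fun H hH => ?_⟩
  refine le_trans ?_ (h1 H (by omega))
  rw [Nat.cast_le]
  refine card_le_card fun c hc => ?_
  obtain ⟨hc1, hc2⟩ := mem_filter.1 hc
  refine mem_filter.2 ⟨hc1, fun hcon => ?_⟩
  obtain ⟨-, -, -, -, a5, -⟩ := hcon
  have hm := hM H (by omega)
  rw [Pool.Agent.Q243.PR.tor_of_equiv hc2] at a5
  have := (abs_le.1 a5).1
  linarith

end Pool.Agent.Q8.QH
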