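import Mathlib
import Pool.Agent.Q8.QH.Four

/-!
# The rank and the 2-isogeny Selmer rank, by height
-/

set_option autoImplicit false

namespace Pool.Agent.Q8.QH

open Finset Pool.Agent.W307.RT

open Pool.Agent.Q8.FI (F4 cA cB)

open Pool.Agent.Q8.NS (OK2)

open Pool.Agent.TH841.SH.D (rk)

open Pool.Agent.TH841.LS (WI)

open Pool.Agent.TH841.PT (EQ)

open Pool.Agent.TH841.NO (fo SQ Qu sq_finite norder2)

/-- the pair `(A, B)` is normal, with the second exponent and the rank -/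
def NmR (R : ℕ) (δ l : ℝ) (A B : ℤ) : Prop :=
  Nm δ l A B ∧ fo (2 * (A + B)) ((A - B) ^ 2) ≤ R ∧ rk (EQ A B) ≤ R

open Classical in
theorem box_nmR (δ : ℝ) (hδ : 0 < δ) (hδ1 : δ ≤ 1) (ε : ℝ) (hε : 0 < ε) :
    ∃ R T0 : ℕ, ∀ T : ℕ, T0 ≤ T → (((Box T).filter (fun t : ℤ × ℤ =>
      ¬ NmR R δ (Real.log (Real.log T)) t.1 t.2)).card : ℝ) ≤ ε * (T : ℝ) ^ 2 := by
  suffices hs : ∀ D : ℕ, 1 ≤ D → ∀ ε : ℝ, 0 < ε → ∃ R T0 : ℕ,
      ∀ T : ℕ, T0 ≤ T → (((Box (T / D)).filter (fun t : ℤ × ℤ => IsCoprime t.1 t.2 ∧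
      ¬ NmR R δ (Real.log (Real.log T)) (D * t.1) (D * t.2))).card : ℝ) ≤ ε * (T : ℝ) ^ 2 by
    obtain ⟨R, T0, h0⟩ := box_ofR (Bad := fun R T A B => ¬ NmR R δ (Real.log (Real.log T)) A B)
      (fun R R' T A B hR h1 h2 => h1 ⟨h2.1, h2.2.1.trans hR, h2.2.2.trans hR⟩)
      (fun D hD ε hε => by
        obtain ⟨R, T0, h0⟩ := hs D hD ε hε
        refine ⟨R, T0, fun T hT => ?_⟩
        have := h0 T hT
        convert this) ε hε
    refine ⟨R, T0, fun T hT => ?_⟩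
    have := h0 T hT
    convert this
  intro D hD ε hε
  obtain ⟨R, X0, h⟩ := norder2 Pool.Agent.TH841.NO.QULf.qul Pool.Agent.TH841.NO.QUMf.qum
    Pool.Agent.TH841.NO.LWAf.lwa Pool.Agent.TH841.NO.LWBf.lwb Pool.Agent.TH841.NO.LWBf.lwc
    Pool.Agent.TH841.NO.PRf.pra Pool.Agent.TH841.NO.PRf.prb
    Pool.Agent.TH841.NO.LIN2f.lin2 Pool.Agent.TH841.LS.CNT2Xf.cnt2x
    Pool.Agent.TH841.NO.CNTU2f.cntu2
    (Pool.Agent.W307.FK.avgn_of Pool.Agent.W307.FK.expf) (D : ℤ)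
    (by exact_mod_cast (by omega : D ≠ 0)) (δ / 2) (ε / 9) 1 (by positivity) (by positivity)
  obtain ⟨M, hM⟩ := Pool.Agent.TH841.LS.big_loglog δ 8 hδ
  refine ⟨R, (X0 + D ^ 2 + 6) * D + M + 9, fun T hT => ?_⟩
  obtain ⟨q, hq⟩ : ∃ q : ℕ, q = T / D := ⟨_, rfl⟩
  obtain ⟨Y, hY⟩ : ∃ Y : ℕ, Y = 2 * q + 1 := ⟨_, rfl⟩
  have hq1 : X0 + D ^ 2 + 6 ≤ q := by
    rw [hq, Nat.le_div_iff_mul_le (by omega)]
    omega
  have hqT : q ≤ T := by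
    rw [hq]
    exact Nat.div_le_self _ _
  have hTq : T < D * (q + 1) := by
    rw [hq]
    exact Nat.lt_mul_div_succ T (by omega)
  have h1 := h (-(q : ℤ) - 1) (-(q : ℤ) - 1) Y (by omega) (by rw [pow_one]; omega)
    (by rw [pow_one]; omega)
  have hYT : Y ≤ 3 * T := by omega
  have hYT2 : Y ≤ T ^ 2 := by
    calc Y ≤ 3 * T := hYT
      _ ≤ T * T := Nat.mul_le_mul_right _ (by omega)
      _ = T ^ 2 := by ring
  have hTY2 : T ≤ Y ^ 2 := by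
    calc T ≤ D * (q + 1) := hTq.le
      _ ≤ (q + 1) * (q + 1) := Nat.mul_le_mul_right _ (by nlinarith)
      _ ≤ Y * Y := Nat.mul_le_mul (by omega) (by omega)
      _ = Y ^ 2 := by ring
  have l1 := lglg_le (k := 2) (by omega : 3 ≤ T) (by omega : 3 ≤ Y) (by norm_num) hYT2
  have l2 := lglg_le (k := 2) (by omega : 3 ≤ Y) (by omega : 3 ≤ T) (by norm_num) hTY2
  have l3 := hM T (by omega)
  rw [← hq]
  have h2 : ((Box q).filter (fun t : ℤ × ℤ => IsCoprime t.1 t.2 ∧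
      ¬ NmR R δ (Real.log (Real.log T)) ((D : ℤ) * t.1) ((D : ℤ) * t.2))).card ≤
      ((Icc 1 Y ×ˢ Icc 1 Y).filter (fun t : ℕ × ℕ =>
        IsCoprime ((-(q : ℤ) - 1) + (t.1 : ℤ)) ((-(q : ℤ) - 1) + (t.2 : ℤ)) ∧
        ¬ ∀ A B : ℤ, A = (D : ℤ) * ((-(q : ℤ) - 1) + (t.1 : ℤ)) →
          B = (D : ℤ) * ((-(q : ℤ) - 1) + (t.2 : ℤ)) →
        A ≠ 0 ∧ B ≠ 0 ∧ A ≠ B ∧
        (3 / 2 - δ / 2) * Real.log (Real.log Y) ≤ fo (-(A + B)) (A * B) ∧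
        (fo (-(A + B)) (A * B) : ℝ) ≤ (3 / 2 + δ / 2) * Real.log (Real.log Y) ∧
        fo (2 * (A + B)) ((A - B) ^ 2) ≤ R ∧
          rk (Pool.Agent.TH841.PT.EQ A B) ≤ R)).card := by
    apply card_le_card_of_injOn (fun t : ℤ × ℤ => ((t.1 + q + 1).toNat, (t.2 + q + 1).toNat))
    · intro t ht
      obtain ⟨ht1, ht2, ht3⟩ := mem_filter.1 (mem_coe.1 ht)
      rw [mem_Box] at ht1
      have e1 : (-(q : ℤ) - 1) + (((t.1 + q + 1).toNat : ℕ) : ℤ) = t.1 := by omega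
      have e2 : (-(q : ℤ) - 1) + (((t.2 + q + 1).toNat : ℕ) : ℤ) = t.2 := by omega
      rw [mem_coe, mem_filter, mem_product, mem_Icc, mem_Icc]
      refine ⟨by dsimp only; omega, ?_, fun hall => ?_⟩
      · change IsCoprime ((-(q : ℤ) - 1) + (((t.1 + q + 1).toNat : ℕ) : ℤ))
          ((-(q : ℤ) - 1) + (((t.2 + q + 1).toNat : ℕ) : ℤ))
        rw [e1, e2]
        exact ht2
      · obtain ⟨a1, a2, a3, a4, a5, a6, a7⟩ := hall _ _ rfl rfl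
        change (D : ℤ) * ((-(q : ℤ) - 1) + (((t.1 + q + 1).toNat : ℕ) : ℤ)) ≠ 0 at a1
        change (D : ℤ) * ((-(q : ℤ) - 1) + (((t.2 + q + 1).toNat : ℕ) : ℤ)) ≠ 0 at a2
        change (D : ℤ) * ((-(q : ℤ) - 1) + (((t.1 + q + 1).toNat : ℕ) : ℤ)) ≠
          (D : ℤ) * ((-(q : ℤ) - 1) + (((t.2 + q + 1).toNat : ℕ) : ℤ)) at a3
        rw [e1] at a1
        rw [e2] at a2
        rw [e1, e2] at a3
        dsimp only at a4 a5 a6 a7
        rw [e1, e2] at a4 a5 a6 a7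
        exact ht3 ⟨Nm.mono (l' := Real.log (Real.log Y)) ⟨a1, a2, a3, a4, a5⟩ l2 l1 hδ hδ1
          (by linarith), a6, a7⟩
    · intro t ht t' ht' he
      obtain ⟨ht1, -⟩ := mem_filter.1 (mem_coe.1 ht)
      obtain ⟨ht1', -⟩ := mem_filter.1 (mem_coe.1 ht')
      rw [mem_Box] at ht1 ht1'
      have e1 : (t.1 + q + 1).toNat = (t'.1 + q + 1).toNat := congrArg Prod.fst he
      have e2 : (t.2 + q + 1).toNat = (t'.2 + q + 1).toNat := congrArg Prod.snd he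
      exact Prod.ext (by omega) (by omega)
  refine (Nat.cast_le.2 h2).trans (h1.trans ?_)
  have h3 : (Y : ℝ) ≤ 3 * T := by exact_mod_cast hYT
  calc ε / 9 * (Y : ℝ) ^ 2 ≤ ε / 9 * (3 * (T : ℝ)) ^ 2 :=
        mul_le_mul_of_nonneg_left (pow_le_pow_left₀ (Nat.cast_nonneg _) h3 2) (by positivity)
    _ = _ := by ring

/-- both properties -/
def PP (R : ℕ) (δ l : ℝ) (A B : ℤ) : Prop := NmR R δ l A B ∧ rk (WI A B) ≤ R

open Classical in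
theorem box_pp (δ : ℝ) (hδ : 0 < δ) (hδ1 : δ ≤ 1) (ε : ℝ) (hε : 0 < ε) :
    ∃ R T0 : ℕ, ∀ T : ℕ, T0 ≤ T → (((Box T).filter (fun t : ℤ × ℤ =>
      ¬ PP R δ (Real.log (Real.log T)) t.1 t.2)).card : ℝ) ≤ ε * (T : ℝ) ^ 2 := by
  obtain ⟨R1, T1, h1⟩ := box_nmR δ hδ hδ1 (ε / 2) (by positivity)
  obtain ⟨R2, T2, h2⟩ := box_ok δ hδ hδ1 (ε / 2) (by positivity)
  refine ⟨R1 + R2, T1 + T2, fun T hT => ?_⟩
  have g1 := h1 T (by omega)
  have g2 := h2 T (by omega)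
  have h3 : (Box T).filter (fun t : ℤ × ℤ => ¬ PP (R1 + R2) δ (Real.log (Real.log T)) t.1 t.2) ⊆
      (Box T).filter (fun t : ℤ × ℤ => ¬ NmR R1 δ (Real.log (Real.log T)) t.1 t.2) ∪
      (Box T).filter (fun t : ℤ × ℤ => ¬ OK2 R2 (3 / 2) δ (Real.log (Real.log T)) t.1 t.2) := by
    intro t ht
    obtain ⟨ht1, ht2⟩ := mem_filter.1 ht
    rw [mem_union]
    by_contra hcon
    rw [not_or] at hcon
    obtain ⟨k1, k2⟩ := hcon
    have m1 := not_not.1 fun h' => k1 (mem_filter.2 ⟨ht1, h'⟩)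
    have m2 := not_not.1 fun h' => k2 (mem_filter.2 ⟨ht1, h'⟩)
    obtain ⟨-, -, -, -, -, -, b4, -⟩ := m2
    exact ht2 ⟨⟨m1.1, m1.2.1.trans (by omega), m1.2.2.trans (by omega)⟩, b4.trans (by omega)⟩
  have h4 := (Nat.cast_le (α := ℝ)).2 ((card_le_card h3).trans (card_union_le _ _))
  rw [Nat.cast_add] at h4
  linarith

lemma pp_mono {R : ℕ} {δ l l' : ℝ} {A B : ℤ} (h : PP R (δ / 2) l' A B) (h1 : l ≤ l' + 2)
    (h2 : l' ≤ l + 2) (hδ : 0 < δ) (hδ1 : δ ≤ 1) (h3 : 8 ≤ δ * l) : PP R δ l A B :=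
  ⟨⟨Nm.mono h.1.1 h1 h2 hδ hδ1 h3, h.1.2.1, h.1.2.2⟩, h.2⟩

lemma low2 : Low (Cv 2) := Pool.Agent.W672.FK.lowf

open Classical in
/-- a family with a parametrisation -/
theorem fam_pp {Fm : ℕ → Finset (ℤ × ℤ)} (hL : Low Fm) {Rl : ℤ × ℤ → ℤ → ℤ → Prop} {k : ℕ}
    (hk : 1 ≤ k) (hk7 : k ≤ 7) (hbd : ∀ H : ℕ, ∀ c ∈ Fm H, ∀ A B : ℤ, Rl c A B →
      A.natAbs ≤ k * tau H ∧ B.natAbs ≤ k * tau H)
    (hinj : ∀ c c' : ℤ × ℤ, ∀ A B : ℤ, Rl c A B → Rl c' A B → c = c')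
    (δ : ℝ) (hδ : 0 < δ) (hδ1 : δ ≤ 1) (ε : ℝ) (hε : 0 < ε) :
    ∃ R H0 : ℕ, ∀ H : ℕ, H0 ≤ H → (((Fm H).filter (fun c : ℤ × ℤ => ¬ ∀ A B : ℤ, Rl c A B →
      PP R δ (Real.log (Real.log H)) A B)).card : ℝ) ≤ ε * ((Fm H).card : ℝ) := by
  obtain ⟨κ, hκ, hgen⟩ := gen_ae (k := k) hL hk hbd hinj
  obtain ⟨R, hR⟩ := box_pp (δ / 2) (by positivity) (by linarith) (ε * κ) (by positivity)
  obtain ⟨H1, hH1⟩ := hgen (fun T A B => ¬ PP R (δ / 2) (Real.log (Real.log T)) A B) ε hε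
    (by
      obtain ⟨T0, hT0⟩ := hR
      refine ⟨T0, fun T hT => ?_⟩
      have := hT0 T hT
      convert this)
  obtain ⟨M, hM⟩ := Pool.Agent.TH841.LS.big_loglog δ 8 hδ
  refine ⟨R, H1 + M + 7 ^ 6, fun H hH => ?_⟩
  refine le_trans ?_ (hH1 H (by omega))
  rw [Nat.cast_le]
  refine card_le_card fun c hc => ?_
  obtain ⟨hc1, hc2⟩ := mem_filter.1 hc
  refine mem_filter.2 ⟨hc1, ?_⟩
  by_contra hcon
  push Not at hcon
  apply hc2
  intro A B hr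
  have ht6 := tau_spec H
  have hT3 : 7 ≤ tau H := by
    by_contra hcon
    push Not at hcon
    have h1 : tau H ^ 6 < 7 ^ 6 := Nat.pow_lt_pow_left hcon (by norm_num)
    omega
  have hTH : tau H ≤ H := tau_le (by omega)
  have hkt : tau H ≤ k * tau H := Nat.le_mul_of_pos_left _ hk
  have m1 : k * tau H ≤ H ^ 2 := by
    calc k * tau H ≤ H * H := Nat.mul_le_mul (by omega) hTH
      _ = H ^ 2 := by ring
  have m2 : H ≤ (k * tau H) ^ 6 := by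
    have h1 : tau H ^ 6 ≤ (k * tau H) ^ 6 := Nat.pow_le_pow_left hkt 6
    omega
  exact pp_mono (hcon A B hr) (lglg_le (k := 6) (by omega) (by omega) (by norm_num) m2)
    (lglg_le (k := 2) (by omega) (by omega) (by norm_num) m1) hδ hδ1 (hM H (by omega))

/-! ### The exponents -/

/-- the curve `y² = x³ + a x² + b x` -/
def Eab (a b : ℤ) : WeierstrassCurve ℚ := ⟨0, (a : ℚ), 0, (b : ℚ), 0⟩

/-- the properties of the equation `y² = x³ + a x² + b x` -/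
def NE (R : ℕ) (δ l : ℝ) (a b : ℤ) : Prop := b ≠ 0 ∧ a ^ 2 - 4 * b ≠ 0 ∧ rk (Eab a b) ≤ R ∧
  |((fo a b : ℤ) + fo (-2 * a) (a ^ 2 - 4 * b) - 2 : ℝ) - 3 / 2 * l| ≤ δ * l

lemma ne_full {R : ℕ} {δ l : ℝ} {A B : ℤ} (h : PP R (δ / 2) l A B)
    (hl : (R : ℝ) + 2 ≤ δ / 2 * l) : NE R δ l (-(A + B)) (A * B) := by
  obtain ⟨⟨⟨a1, a2, a3, a4, a5⟩, a6, a7⟩, -⟩ := h
  have e2 : (-(A + B)) ^ 2 - 4 * (A * B) = (A - B) ^ 2 := by ring
  have e1 : -2 * -(A + B) = 2 * (A + B) := by ring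
  refine ⟨mul_ne_zero a1 a2, ?_, ?_, ?_⟩
  · rw [e2]
    exact pow_ne_zero 2 (sub_ne_zero.2 a3)
  · have e3 : Eab (-(A + B)) (A * B) = EQ A B := by
      unfold Eab EQ
      congr 1
      · push_cast
        ring
      · push_cast
        ring
    rw [e3]
    exact a7
  · rw [e1, e2]
    have h5 : (0 : ℝ) ≤ (fo (2 * (A + B)) ((A - B) ^ 2) : ℝ) := Nat.cast_nonneg _
    have h6 : (fo (2 * (A + B)) ((A - B) ^ 2) : ℝ) ≤ R := by exact_mod_cast a6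
    push_cast
    rw [abs_le]
    constructor <;> linarith

/-- the inclusion of the sets of the quartics -/
lemma sq_sub (t s : ℤ) (_hs : s ≠ 0) : SQ (3 * t) (s ^ 2) ⊆ SQ (12 * t) (16 * s ^ 2) := by
  have key : ∀ (K : Type) [Field K] [CharZero K] (b : ℤ), b ∣ s ^ 2 → b ≠ 0 →
      Qu K (3 * t) (s ^ 2) b → Qu K (12 * t) (16 * s ^ 2) b := by
    intro K _ _ b hb hb0 h
    obtain ⟨N, M, e, hMe, hN⟩ := h
    obtain ⟨q, hq⟩ := hb
    have e1 : s ^ 2 / b = q := by rw [hq, Int.mul_ediv_cancel_left _ hb0]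
    have e2 : 16 * s ^ 2 / b = 16 * q := by
      rw [hq, show 16 * (b * q) = b * (16 * q) by ring, Int.mul_ediv_cancel_left _ hb0]
    rw [e1] at hN
    refine ⟨N, M, e / 2, ?_, ?_⟩
    · rcases hMe with h | h
      · exact Or.inl h
      · exact Or.inr (div_ne_zero h two_ne_zero)
    · rw [e2, hN]
      push_cast
      ring
  rintro b ⟨h1, h2, h3, h4⟩
  exact ⟨h1, h2.trans (Dvd.intro_left 16 rfl), key ℝ b h2 h1.ne_zero h3,
    fun p _ => key ℚ_[p] b h2 h1.ne_zero (h4 p)⟩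

lemma ne_four {R : ℕ} {δ l : ℝ} {t s : ℤ} (hs : s ≠ 0)
    (h : PP R (δ / 2) l (3 * t + 2 * s) (3 * t - 2 * s)) (hl : (R : ℝ) + 2 ≤ δ / 2 * l) :
    NE R δ l (3 * t) (s ^ 2) := by
  obtain ⟨⟨⟨a1, a2, a3, a4, a5⟩, a6, a7⟩, a8⟩ := h
  have e1 : -(3 * t + 2 * s + (3 * t - 2 * s)) = -2 * (3 * t) := by ring
  have e2 : (3 * t + 2 * s) * (3 * t - 2 * s) = (3 * t) ^ 2 - 4 * s ^ 2 := by ring
  have e3 : 2 * (3 * t + 2 * s + (3 * t - 2 * s)) = 12 * t := by ring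
  have e4 : (3 * t + 2 * s - (3 * t - 2 * s)) ^ 2 = 16 * s ^ 2 := by ring
  refine ⟨pow_ne_zero 2 hs, ?_, ?_, ?_⟩
  · rw [← e2]
    exact mul_ne_zero a1 a2
  · have hv : Pool.Agent.Y700.VR (Eab (3 * t) (s ^ 2))
        (WI (3 * t + 2 * s) (3 * t - 2 * s)) (1 / 2) 0 0 0 := by
      refine ⟨by norm_num, ?_, ?_, ?_, ?_, ?_⟩
      · unfold Eab WI
        ring
      · unfold Eab WI
        push_cast
        ring
      · unfold Eab WI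
        ring
      · unfold Eab WI
        push_cast
        ring
      · unfold Eab WI
        ring
    rw [← Pool.Agent.Q8.TP.rk_eq hv (wi_disc a1 a2 a3)]
    exact a8
  · rw [e1, e2] at a4 a5
    rw [e3, e4] at a6
    have hfin : (SQ (12 * t) (16 * s ^ 2)).Finite :=
      sq_finite (mul_ne_zero (by norm_num) (pow_ne_zero 2 hs))
    have h5 : fo (3 * t) (s ^ 2) ≤ R := by
      refine le_trans ?_ a6
      unfold fo
      exact Nat.log_mono_right (Set.ncard_le_ncard (sq_sub t s hs) hfin)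
    have h6 : (fo (3 * t) (s ^ 2) : ℝ) ≤ R := by exact_mod_cast h5
    have h7 : (0 : ℝ) ≤ (fo (3 * t) (s ^ 2) : ℝ) := Nat.cast_nonneg _
    push_cast
    push_cast at a4 a5
    rw [abs_le]
    constructor <;> linarith

end Pool.Agent.Q8.QH
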