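import Mathlib
import Pool.Agent.TH841.NO.Fin
import Pool.Agent.TH841.FD.Main3
import Pool.Agent.TH841.FD.Covl

/-!
# The quartics and the coverings in pencils
-/

set_option autoImplicit false

namespace Pool.Agent.Q8.QH.Pen

open Finset Polynomial

open Pool.Agent.TH841.NO (fo SQ sq_finite norder)

open Pool.Agent.TH841.FD (LF lf_le)

open Pool.Agent.TH841.PT (Irr)

open Pool.Agent.TH841.TR (UP FP allf allc fp Bal pen_all)

open Pool.Agent.TH841.LS (DG sc big_loglog rank_in)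

open Pool.Agent.TH841.PM (DZ MZ penZ tavz)

open Pool.Agent.W307.SE (SN SN_nonneg)

lemma SQ_one (A B : ℤ) : (1 : ℤ) ∈ SQ (-(A + B)) (A * B) := by
  refine ⟨squarefree_one, one_dvd _, ⟨1, 1, 0, Or.inl one_ne_zero, ?_⟩, fun p _ =>
    ⟨1, 1, 0, Or.inl one_ne_zero, ?_⟩⟩
  · push_cast
    ring
  · push_cast
    ring

/-- from `f₁` to the number of the quartics -/
lemma cnt_of {A B : ℤ} (hA : A ≠ 0) (hB : B ≠ 0) {κ δ l : ℝ} (hδ : 0 < δ)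
    (a4 : (κ - δ / 2) * l ≤ fo (-(A + B)) (A * B))
    (a5 : (fo (-(A + B)) (A * B) : ℝ) ≤ (κ + δ / 2) * l) (h3 : 2 ≤ δ * l)
    {X : ℝ} (hX : 0 < X) (hl : l = Real.log X) :
    X ^ (κ * Real.log 2 - δ) ≤ ((SQ (-(A + B)) (A * B)).ncard : ℝ) ∧
      ((SQ (-(A + B)) (A * B)).ncard : ℝ) ≤ X ^ (κ * Real.log 2 + δ) := by
  obtain ⟨n, hn⟩ : ∃ n : ℕ, n = (SQ (-(A + B)) (A * B)).ncard := ⟨_, rfl⟩
  obtain ⟨m, hm⟩ : ∃ m : ℕ, m = fo (-(A + B)) (A * B) := ⟨_, rfl⟩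
  have hfin : (SQ (-(A + B)) (A * B)).Finite := sq_finite (mul_ne_zero hA hB)
  have hn0 : n ≠ 0 := by
    rw [hn, Ne, Set.ncard_eq_zero hfin]
    exact (Set.nonempty_of_mem (SQ_one A B)).ne_empty
  have hmn : m = Nat.log 2 n := by rw [hm, hn]; rfl
  rw [← hm] at a4 a5
  rw [← hn]
  have e1 : 2 ^ m ≤ n := by rw [hmn]; exact Nat.pow_log_le_self 2 hn0
  have e2 : n < 2 ^ (m + 1) := by rw [hmn]; exact Nat.lt_pow_succ_log_self (by norm_num) n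
  have e1' : (2 : ℝ) ^ m ≤ n := by exact_mod_cast e1
  have e2' : (n : ℝ) ≤ (2 : ℝ) ^ (m + 1) := by exact_mod_cast e2.le
  have k2 : 0 < Real.log 2 := Real.log_pos (by norm_num)
  have k3 : Real.log 2 ≤ 1 := by
    have := Real.log_two_lt_d9
    linarith
  have hlH : 0 < l := by
    by_contra hcon
    push Not at hcon
    nlinarith
  have p1 : (2 : ℝ) ^ m = Real.exp (Real.log 2 * m) := by
    rw [← Real.rpow_natCast, Real.rpow_def_of_pos (by norm_num)]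
  have p2 : (2 : ℝ) ^ (m + 1) = Real.exp (Real.log 2 * (m + 1)) := by
    rw [← Real.rpow_natCast, Real.rpow_def_of_pos (by norm_num)]
    push_cast
    rfl
  rw [Real.rpow_def_of_pos hX, Real.rpow_def_of_pos hX, ← hl]
  have q1 : Real.log 2 * (δ / 2 * l) ≤ δ / 2 * l := by
    have : 0 ≤ δ / 2 * l := by positivity
    nlinarith
  constructor
  · refine le_trans ?_ e1'
    rw [p1, Real.exp_le_exp]
    have r2 : Real.log 2 * ((κ - δ / 2) * l) ≤ Real.log 2 * m :=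
      mul_le_mul_of_nonneg_left a4 k2.le
    have e : Real.log 2 * ((κ - δ / 2) * l) = l * (κ * Real.log 2) - Real.log 2 * (δ / 2 * l) := by
      ring
    have e' : l * (κ * Real.log 2 - δ) = l * (κ * Real.log 2) - δ * l := by ring
    rw [e] at r2
    rw [e']
    have : 0 ≤ δ * l := by positivity
    linarith
  · refine e2'.trans ?_
    rw [p2, Real.exp_le_exp]
    have r2 : Real.log 2 * ((m : ℝ) + 1) ≤ Real.log 2 * ((κ + δ / 2) * l + 1) :=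
      mul_le_mul_of_nonneg_left (by linarith) k2.le
    refine r2.trans ?_
    have e : Real.log 2 * ((κ + δ / 2) * l + 1) =
        l * (κ * Real.log 2) + Real.log 2 * (δ / 2 * l) + Real.log 2 := by ring
    have e' : l * (κ * Real.log 2 + δ) = l * (κ * Real.log 2) + δ * l := by ring
    rw [e, e']
    linarith

section

variable {n : Fin 3 → ℕ} {m : ℕ}

lemma fp_irr {f : ∀ k : Fin 3, Fin (n k) → ℤ[X]} {g : Fin m → ℤ[X]} (hf : Irr (allf g f)) :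
    Irr (fp f) := by
  refine ⟨fun x => hf.irr (Sum.inl x), fun x => hf.deg (Sum.inl x), fun x y hxy => ?_⟩
  exact hf.assoc (Sum.inl x) (Sum.inl y) (fun h => hxy (Sum.inl_injective h))

lemma DG_ne {f : ∀ k : Fin 3, Fin (n k) → ℤ[X]} {c : ℤ} {g : Fin m → ℤ[X]} (hc : c ≠ 0)
    (hf : Irr (allf g f)) : DG c g ≠ 0 := by
  unfold DG
  exact mul_ne_zero (C_ne_zero.2 hc)
    (prod_ne_zero_iff.2 fun i _ => (hf.irr (Sum.inr i)).ne_zero)

lemma ndvd {f : ∀ k : Fin 3, Fin (n k) → ℤ[X]} {c : ℤ} {g : Fin m → ℤ[X]} (hc : c ≠ 0)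
    (hf : Irr (allf g f)) : ∀ k i, ¬ f k i ∣ DG c g := by
  intro k i hdvd
  have hirr : Irreducible (f k i) := hf.irr (Sum.inl ⟨k, i⟩)
  have hp : Prime (f k i) := hirr.prime
  unfold DG at hdvd
  rcases hp.dvd_or_dvd hdvd with h1 | h1
  · have h2 := natDegree_le_of_dvd h1 (C_ne_zero.2 hc)
    rw [natDegree_C] at h2
    have h3 : 0 < (f k i).natDegree := hf.deg (Sum.inl ⟨k, i⟩)
    omega
  · obtain ⟨l, _, hl⟩ := (Prime.dvd_finsetProd_iff hp _).1 h1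
    have h2 : Associated (f k i) (g l) :=
      hirr.associated_of_dvd (hf.irr (Sum.inr l)) hl
    exact hf.assoc (Sum.inl ⟨k, i⟩) (Sum.inr l) (by simp) h2

lemma ne_of {a : Fin 3 → ℤ} {f : ∀ k : Fin 3, Fin (n k) → ℤ[X]} {D : ℤ[X]}
    (hU : UP a f 0 - UP a f 1 = UP a f 2) {t : ℤ} (h : ∀ k, (D * UP a f k).eval t ≠ 0) :
    (D * UP a f 0).eval t ≠ (D * UP a f 1).eval t := by
  intro h'
  apply h 2
  rw [← hU, mul_sub, eval_sub, h', sub_self]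

open Classical in
/-- **all moments outside of one set of density zero** -/
theorem strict (a : Fin 3 → ℤ) (f : ∀ k : Fin 3, Fin (n k) → ℤ[X]) (c : ℤ) (g : Fin m → ℤ[X])
    (ha : ∀ k, a k ≠ 0) (hc : c ≠ 0) (hf : Irr (allf g f))
    (hU : UP a f 0 - UP a f 1 = UP a f 2) (hn : ∀ k, 2 * n k < n 0 + n 1 + n 2) :
    ∃ Z : Set ℤ, DZ Z ∧ (∀ t, t ∉ Z → ∀ k, (DG c g * UP a f k).eval t ≠ 0) ∧
      ∀ k L : ℕ, ∃ C : ℝ, ∀ (N : ℤ) (M : ℕ), 1 ≤ M → |N| ≤ (M : ℤ) ^ L →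
        ∑ t ∈ (Ioc N (N + (M : ℤ))).filter (fun t => t ∉ Z),
          ((LF ((DG c g * UP a f 0).eval t) ((DG c g * UP a f 1).eval t)).ncard : ℝ) ^ k ≤
        C * M := by
  obtain ⟨Z, h1, h2, h3⟩ := penZ tavz a f ha (fp_irr hf) hU (DG c g) (DG_ne hc hf) (ndvd hc hf) hn
  refine ⟨Z, h1, h2, fun k L => ?_⟩
  obtain ⟨C, -, hC⟩ := h3 k L
  refine ⟨C, fun N M hM hN => le_trans (sum_le_sum fun t ht => ?_) (hC N M hM hN)⟩
  have ht2 := (mem_filter.1 ht).2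
  have h4 := h2 t ht2
  exact pow_le_pow_left₀ (Nat.cast_nonneg _)
    (lf_le Pool.Agent.TH841.FD.COVLf.covl (h4 0) (h4 1) (ne_of hU h4)) k

/-- **the first moment over all the arguments** -/
theorem bal (a : Fin 3 → ℤ) (f : ∀ k : Fin 3, Fin (n k) → ℤ[X]) (c : ℤ) (g : Fin m → ℤ[X])
    (ha : ∀ k, a k ≠ 0) (hc : c ≠ 0) (hf : Irr (allf g f))
    (hU : UP a f 0 - UP a f 1 = UP a f 2) (hn : Bal (DG c g) a f) (L : ℕ) :
    ∃ C : ℝ, ∀ (N : ℤ) (M : ℕ), 1 ≤ M → |N| ≤ (M : ℤ) ^ L →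
      ∑ t ∈ (Ioc N (N + (M : ℤ))).filter (fun t => ∀ k, (DG c g * UP a f k).eval t ≠ 0),
        ((LF ((DG c g * UP a f 0).eval t) ((DG c g * UP a f 1).eval t)).ncard : ℝ) ≤ C * M := by
  obtain ⟨C, -, hC⟩ := pen_all Pool.Agent.TH841.TR.tav3x a f ha (fp_irr hf) hU (DG c g)
    (DG_ne hc hf) (ndvd hc hf) hn L
  refine ⟨C, fun N M hM hN => le_trans (sum_le_sum fun t ht => ?_) (hC N M hM hN)⟩
  have h4 := (mem_filter.1 ht).2
  exact lf_le Pool.Agent.TH841.FD.COVLf.covl (h4 0) (h4 1) (ne_of hU h4)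

open Classical in
/-- **almost all the arguments** -/
theorem ae (a : Fin 3 → ℤ) (f : ∀ k : Fin 3, Fin (n k) → ℤ[X]) (c : ℤ) (g : Fin m → ℤ[X])
    (ha : ∀ k, a k ≠ 0) (hc : c ≠ 0) (hf : Irr (allf g f))
    (hU : UP a f 0 - UP a f 1 = UP a f 2)
    (hn : (∀ k, 2 * n k < n 0 + n 1 + n 2) ∨ Bal (DG c g) a f) (δ ε : ℝ) (L : ℕ)
    (hδ : 0 < δ) (hε : 0 < ε) :
    ∃ R M0 : ℕ, ∀ (N : ℤ) (M : ℕ), M0 ≤ M → |N| ≤ (M : ℤ) ^ L →
      (((Ioc N (N + (M : ℤ))).filter (fun t => ¬ ∀ A B : ℤ, A = (DG c g * UP a f 0).eval t →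
        B = (DG c g * UP a f 1).eval t → A ≠ 0 ∧ B ≠ 0 ∧ A ≠ B ∧ (LF A B).ncard ≤ R ∧
        (Real.log M) ^ (sc a f c g * Real.log 2 - δ) ≤ ((SQ (-(A + B)) (A * B)).ncard : ℝ) ∧
        ((SQ (-(A + B)) (A * B)).ncard : ℝ) ≤
          (Real.log M) ^ (sc a f c g * Real.log 2 + δ))).card : ℝ) ≤ ε * M := by
  obtain ⟨R0, M1, h1⟩ := norder Pool.Agent.TH841.NO.QULf.qul Pool.Agent.TH841.NO.QUMf.qum
    Pool.Agent.TH841.NO.LWAf.lwa Pool.Agent.TH841.NO.LWBf.lwb Pool.Agent.TH841.NO.LWBf.lwc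
    Pool.Agent.TH841.NO.PRf.pra Pool.Agent.TH841.NO.PRf.prb
    Pool.Agent.TH841.NO.LIN2f.lin2
    (Pool.Agent.TH841.LS.CNTXf.cntx_of Pool.Agent.TH841.LS.TKXf.tkx)
    (Pool.Agent.TH841.NO.CNTUf.cntu_of Pool.Agent.TH841.LS.TKXf.tkx Pool.Agent.TH841.NO.TKLf.tkl)
    Pool.Agent.TH841.PM.tavz Pool.Agent.TH841.TR.tav3x a f c g ha hc hf hU hn (δ / 2) (ε / 3) L
    (by positivity) (by positivity)
  obtain ⟨Z, hZ1, hZ2, C0, hC0, hC⟩ := rank_in Pool.Agent.TH841.PM.tavz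
    Pool.Agent.TH841.TR.tav3x a f ha (fp_irr hf) hU (DG c g) (DG_ne hc hf) (ndvd hc hf) hn L
  obtain ⟨M2, hM2⟩ := hZ1 L (ε / 3) (by positivity)
  obtain ⟨R, hR⟩ : ∃ R : ℕ, R = ⌈3 * C0 / ε⌉₊ + 1 := ⟨_, rfl⟩
  have hRr : 3 * C0 / ε ≤ (R : ℝ) := by
    rw [hR]
    push_cast
    exact (Nat.le_ceil _).trans (by linarith)
  have hR0 : (0 : ℝ) < R := by
    rw [hR]
    positivity
  obtain ⟨M3, hM3⟩ := big_loglog δ 2 hδ
  refine ⟨R, M1 + M2 + M3 + 3, fun N M hM hN => ?_⟩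
  have g1 := h1 N M (by omega) hN
  have g2 := hM2 N M (by omega) hN
  have g3 := hM3 M (by omega)
  have hlog : 0 < Real.log (M : ℝ) := Real.log_pos (by
    have : (3 : ℝ) ≤ (M : ℝ) := by exact_mod_cast (by omega : 3 ≤ M)
    linarith)
  let Q : ℤ → ℝ := fun t => SN ((DG c g * UP a f 0).eval t) ((DG c g * UP a f 1).eval t)
  let X4 : Finset ℤ := (Ioc N (N + (M : ℤ))).filter (fun t => t ∉ Z ∧ (R : ℝ) < Q t)
  have g4 : (X4.card : ℝ) ≤ ε / 3 * M := by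
    have h7 : (X4.card : ℝ) * R ≤ C0 * M := by
      rw [← nsmul_eq_mul]
      refine (card_nsmul_le_sum X4 Q _ fun t ht => (mem_filter.1 ht).2.2.le).trans
        (hC N M (by omega) hN X4 fun t ht => ?_)
      obtain ⟨ht1, ht2, -⟩ := mem_filter.1 ht
      exact ⟨ht1, ht2⟩
    rw [div_le_iff₀ hε] at hRr
    have h10 : (0 : ℝ) ≤ M := Nat.cast_nonneg _
    have h9 : (X4.card : ℝ) * R ≤ (ε / 3 * M) * R := by nlinarith
    exact le_of_mul_le_mul_right h9 hR0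
  let X1 : Finset ℤ := (Ioc N (N + (M : ℤ))).filter (fun t => ¬ ∀ A B : ℤ,
        A = (DG c g * UP a f 0).eval t →
        B = (DG c g * UP a f 1).eval t → A ≠ 0 ∧ B ≠ 0 ∧ A ≠ B ∧
        (sc a f c g - δ / 2) * Real.log (Real.log M) ≤ fo (-(A + B)) (A * B) ∧
        (fo (-(A + B)) (A * B) : ℝ) ≤ (sc a f c g + δ / 2) * Real.log (Real.log M) ∧
        fo (2 * (A + B)) ((A - B) ^ 2) ≤ R0 ∧
          Pool.Agent.TH841.SH.D.rk (Pool.Agent.TH841.PT.EQ A B) ≤ R0)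
  let X2 : Finset ℤ := (Ioc N (N + (M : ℤ))).filter (fun t => t ∈ Z)
  have c1 : (X1.card : ℝ) ≤ ε / 3 * M := by convert g1
  have c2 : (X2.card : ℝ) ≤ ε / 3 * M := by convert g2
  have hsub : (Ioc N (N + (M : ℤ))).filter (fun t => ¬ ∀ A B : ℤ,
        A = (DG c g * UP a f 0).eval t →
        B = (DG c g * UP a f 1).eval t → A ≠ 0 ∧ B ≠ 0 ∧ A ≠ B ∧ (LF A B).ncard ≤ R ∧
        (Real.log M) ^ (sc a f c g * Real.log 2 - δ) ≤ ((SQ (-(A + B)) (A * B)).ncard : ℝ) ∧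
        ((SQ (-(A + B)) (A * B)).ncard : ℝ) ≤
          (Real.log M) ^ (sc a f c g * Real.log 2 + δ)) ⊆ (X1 ∪ X2) ∪ X4 := by
    intro t ht
    obtain ⟨ht1, ht2⟩ := mem_filter.1 ht
    by_contra hcon
    rw [mem_union, mem_union, not_or, not_or] at hcon
    obtain ⟨⟨n1, n2⟩, n4⟩ := hcon
    have m1 := not_not.1 fun h' => n1 (mem_filter.2 ⟨ht1, h'⟩)
    have m2 : t ∉ Z := fun h' => n2 (mem_filter.2 ⟨ht1, h'⟩)
    have m4 : Q t ≤ R := by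
      by_contra h'
      exact n4 (mem_filter.2 ⟨ht1, m2, not_le.1 h'⟩)
    apply ht2
    rintro A B rfl rfl
    obtain ⟨b1, b2, b3, b4, b5, -, -⟩ := m1 _ _ rfl rfl
    refine ⟨b1, b2, b3, ?_, cnt_of b1 b2 hδ b4 b5 g3 hlog rfl⟩
    have h5 := (lf_le Pool.Agent.TH841.FD.COVLf.covl b1 b2 b3).trans m4
    exact_mod_cast h5
  have h5 := (Nat.cast_le (α := ℝ)).2 ((card_le_card hsub).trans ((card_union_le _ _).trans
    (Nat.add_le_add_right (card_union_le _ _) _)))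
  rw [Nat.cast_add, Nat.cast_add] at h5
  linarith

end

end Pool.Agent.Q8.QH.Pen
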