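import Mathlib
import Pool.Agent.Q8.QH.Ht
import Pool.Agent.TH841.FD.Main3
import Pool.Agent.TH841.FD.Covl

/-!
# The quartics and the coverings, by height
-/

set_option autoImplicit false

namespace Pool.Agent.Q8.QH

open Finset Pool.Agent.W307.RT

open Pool.Agent.TH841.NO (fo SQ sq_finite)

open Pool.Agent.TH841.FD (LF lf_le rat_mem)

open Pool.Agent.W410.FK (G2 G2_nonneg box_G2)

open Pool.Agent.W307.SE (SN)

lemma SQ_one (A B : ℤ) : (1 : ℤ) ∈ SQ (-(A + B)) (A * B) := by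
  refine ⟨squarefree_one, one_dvd _, ⟨1, 1, 0, Or.inl one_ne_zero, ?_⟩, fun p _ =>
    ⟨1, 1, 0, Or.inl one_ne_zero, ?_⟩⟩
  · push_cast
    ring
  · push_cast
    ring

lemma LF_G2 {A B : ℤ} (hA : A ≠ 0) (hB : B ≠ 0) (hAB : A ≠ B) :
    ((LF A B).ncard : ℝ) ^ 2 ≤ G2 (A, B) := by
  have h1 := lf_le Pool.Agent.TH841.FD.COVLf.covl hA hB hAB
  unfold G2
  rw [if_pos ⟨hA, hB, hAB⟩]
  exact pow_le_pow_left₀ (Nat.cast_nonneg _) h1 2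

theorem box2 : ∃ C : ℝ, 0 ≤ C ∧ ∀ T : ℕ, 1 ≤ T → ∑ t ∈ Box T, G2 t ≤ C * (T : ℝ) ^ 2 :=
  box_G2 (Pool.Agent.W307.FK.avgn_of Pool.Agent.W307.FK.expf) Pool.Agent.W334.FK.som

/-- the second moment -/
theorem lf_mom : ∃ C : ℝ, 0 ≤ C ∧ ∀ (H : ℕ) (f : ℤ × ℤ → ℤ × ℤ),
    (∀ c ∈ Cv 2 H, Roots c (f c).1 (f c).2) →
      ∑ c ∈ Cv 2 H, ((LF (f c).1 (f c).2).ncard : ℝ) ^ 2 ≤ C * ((Cv 2 H).card : ℝ) := by
  obtain ⟨C, hC, h⟩ := ht_sum G2_nonneg box2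
  refine ⟨C, hC, fun H f hf => le_trans (sum_le_sum fun c hc => ?_) (h H f hf)⟩
  obtain ⟨a1, a2, a3⟩ := roots_ne (hf c hc) (mem_cv hc).1
  exact LF_G2 a1 a2 a3

open Classical in
/-- the pairs with many covered quartics -/
lemma box_lf (ε : ℝ) (hε : 0 < ε) : ∃ R : ℕ, ∀ T : ℕ, 1 ≤ T →
    (((Box T).filter (fun t : ℤ × ℤ => t.1 ≠ 0 ∧ t.2 ≠ 0 ∧ t.1 ≠ t.2 ∧
      R < (LF t.1 t.2).ncard)).card : ℝ) ≤ ε * (T : ℝ) ^ 2 := by
  obtain ⟨C, hC, h⟩ := box2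
  obtain ⟨R, hR⟩ : ∃ R : ℕ, R = ⌈C / ε⌉₊ + 1 := ⟨_, rfl⟩
  refine ⟨R, fun T hT => ?_⟩
  have h1 := h T hT
  have hRr : C / ε ≤ (R : ℝ) := by
    rw [hR]
    push_cast
    exact (Nat.le_ceil _).trans (by linarith)
  have hR1 : (1 : ℝ) ≤ R := by
    rw [hR]
    push_cast
    have : (0 : ℝ) ≤ (⌈C / ε⌉₊ : ℝ) := Nat.cast_nonneg _
    linarith
  have hR0 : (0 : ℝ) < R := by linarith
  obtain ⟨S, hS⟩ : ∃ S : Finset (ℤ × ℤ), S = (Box T).filter (fun t : ℤ × ℤ => t.1 ≠ 0 ∧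
      t.2 ≠ 0 ∧ t.1 ≠ t.2 ∧ R < (LF t.1 t.2).ncard) := ⟨_, rfl⟩
  rw [← hS]
  have h2 : (S.card : ℝ) * (R : ℝ) ≤ C * (T : ℝ) ^ 2 := by
    refine le_trans ?_ h1
    rw [← nsmul_eq_mul]
    refine le_trans (card_nsmul_le_sum S (fun t => G2 t) _ fun t ht => ?_)
      (sum_le_sum_of_subset_of_nonneg (by rw [hS]; exact filter_subset _ _)
        fun t _ _ => G2_nonneg t)
    rw [hS] at ht
    obtain ⟨-, a1, a2, a3, a4⟩ := mem_filter.1 ht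
    have h3 := LF_G2 a1 a2 a3
    have h4 : (R : ℝ) ≤ ((LF t.1 t.2).ncard : ℝ) := by exact_mod_cast a4.le
    calc (R : ℝ) = R * 1 := (mul_one _).symm
      _ ≤ R * R := mul_le_mul_of_nonneg_left hR1 hR0.le
      _ ≤ ((LF t.1 t.2).ncard : ℝ) ^ 2 := by rw [sq]; exact mul_le_mul h4 h4 hR0.le (by linarith)
      _ ≤ G2 t := h3
  rw [div_le_iff₀ hε] at hRr
  have hT2 : 0 ≤ (T : ℝ) ^ 2 := by positivity
  have h3 : (S.card : ℝ) * R ≤ (ε * (T : ℝ) ^ 2) * R := by nlinarith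
  exact le_of_mul_le_mul_right h3 hR0

/-- the bad pairs -/
def BadP (R : ℕ) (δ : ℝ) (T : ℕ) (A B : ℤ) : Prop :=
  ¬ Nm δ (Real.log (Real.log T)) A B ∨ (A ≠ 0 ∧ B ≠ 0 ∧ A ≠ B ∧ R < (LF A B).ncard)

open Classical in
theorem box_bad (δ : ℝ) (hδ : 0 < δ) (hδ1 : δ ≤ 1) (ε : ℝ) (hε : 0 < ε) :
    ∃ R : ℕ, ∀ ε' : ℝ, ε ≤ ε' → ∃ T0 : ℕ, ∀ T : ℕ, T0 ≤ T → (((Box T).filter (fun t : ℤ × ℤ =>
      BadP R δ T t.1 t.2)).card : ℝ) ≤ ε' * (T : ℝ) ^ 2 := by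
  obtain ⟨R, hR⟩ := box_lf (ε / 2) (by positivity)
  obtain ⟨T0, hT0⟩ := box_nm δ hδ hδ1 (ε / 2) (by positivity)
  refine ⟨R, fun ε' hε' => ⟨T0 + 1, fun T hT => ?_⟩⟩
  have h1 := hR T (by omega)
  have h2 := hT0 T (by omega)
  have h3 : (Box T).filter (fun t : ℤ × ℤ => BadP R δ T t.1 t.2) ⊆
      (Box T).filter (fun t : ℤ × ℤ => ¬ Nm δ (Real.log (Real.log T)) t.1 t.2) ∪
      (Box T).filter (fun t : ℤ × ℤ => t.1 ≠ 0 ∧ t.2 ≠ 0 ∧ t.1 ≠ t.2 ∧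
      R < (LF t.1 t.2).ncard) := by
    intro t ht
    obtain ⟨ht1, ht2⟩ := mem_filter.1 ht
    rw [mem_union]
    rcases ht2 with h | h
    · exact Or.inl (mem_filter.2 ⟨ht1, h⟩)
    · exact Or.inr (mem_filter.2 ⟨ht1, h⟩)
  have h4 := (Nat.cast_le (α := ℝ)).2 ((card_le_card h3).trans (card_union_le _ _))
  rw [Nat.cast_add] at h4
  have hT2 : 0 ≤ (T : ℝ) ^ 2 := by positivity
  nlinarith

/-- from `f₁` to the number of the quartics -/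
lemma cnt_of {A B : ℤ} {δ δ' l lH : ℝ} (h : Nm δ' l A B) (hδ : 0 < δ) (hδ'0 : 0 < δ')
    (hδ'1 : δ' ≤ 1) (hδ' : δ' ≤ δ / 2) (h1 : l ≤ lH + 2) (h2 : lH ≤ l + 2) (h3 : 12 ≤ δ * lH)
    {X : ℝ} (hX : 0 < X) (hl : lH = Real.log X) :
    X ^ (3 / 2 * Real.log 2 - δ) ≤ ((SQ (-(A + B)) (A * B)).ncard : ℝ) ∧
      ((SQ (-(A + B)) (A * B)).ncard : ℝ) ≤ X ^ (3 / 2 * Real.log 2 + δ) := by
  obtain ⟨a1, a2, a3, a4, a5⟩ := h
  obtain ⟨n, hn⟩ : ∃ n : ℕ, n = (SQ (-(A + B)) (A * B)).ncard := ⟨_, rfl⟩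
  obtain ⟨m, hm⟩ : ∃ m : ℕ, m = fo (-(A + B)) (A * B) := ⟨_, rfl⟩
  have hfin : (SQ (-(A + B)) (A * B)).Finite := sq_finite (mul_ne_zero a1 a2)
  have hn0 : n ≠ 0 := by
    rw [hn, Ne, Set.ncard_eq_zero hfin]
    exact (Set.nonempty_of_mem (SQ_one A B)).ne_empty
  have hmn : m = Nat.log 2 n := by rw [hm, hn]; rfl
  rw [← hm] at a4 a5
  rw [← hn]
  have e1 : 2 ^ m ≤ n := by rw [hmn]; exact Nat.pow_log_le_self 2 hn0
  have e2 : n < 2 ^ (m + 1) := by rw [hmn]; exact Nat.lt_pow_succ_log_self (by norm_num) n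
  have e1' : (2 : ℝ) ^ m ≤ n := by exact_mod_cast e1
  have e2' : (n : ℝ) ≤ (2 : ℝ) ^ (m + 1) := by exact_mod_cast e2.le
  have k2 : 0 < Real.log 2 := Real.log_pos (by norm_num)
  have k3 : Real.log 2 ≤ 1 := by
    have := Real.log_two_lt_d9
    linarith
  have hlH : 0 < lH := by
    by_contra hcon
    push Not at hcon
    nlinarith
  have p1 : (2 : ℝ) ^ m = Real.exp (Real.log 2 * m) := by
    rw [← Real.rpow_natCast, Real.rpow_def_of_pos (by norm_num)]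
  have p2 : (2 : ℝ) ^ (m + 1) = Real.exp (Real.log 2 * (m + 1)) := by
    rw [← Real.rpow_natCast, Real.rpow_def_of_pos (by norm_num)]
    push_cast
    rfl
  rw [Real.rpow_def_of_pos hX, Real.rpow_def_of_pos hX, ← hl]
  have q1 : δ' * Real.log 2 ≤ δ / 2 := by nlinarith
  constructor
  · refine le_trans ?_ e1'
    rw [p1, Real.exp_le_exp]
    have r1 : (3 / 2 - δ') * (lH - 2) ≤ m := by nlinarith
    have r2 : Real.log 2 * ((3 / 2 - δ') * (lH - 2)) ≤ Real.log 2 * m :=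
      mul_le_mul_of_nonneg_left r1 k2.le
    refine le_trans ?_ r2
    have r3 : δ' * Real.log 2 * lH ≤ δ / 2 * lH := mul_le_mul_of_nonneg_right q1 hlH.le
    have r4 : 0 ≤ Real.log 2 * δ' := by positivity
    nlinarith
  · refine e2'.trans ?_
    rw [p2, Real.exp_le_exp]
    have r1 : (m : ℝ) ≤ (3 / 2 + δ') * (lH + 2) := by nlinarith
    have r2 : Real.log 2 * ((m : ℝ) + 1) ≤ Real.log 2 * ((3 / 2 + δ') * (lH + 2) + 1) :=
      mul_le_mul_of_nonneg_left (by linarith) k2.le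
    refine r2.trans ?_
    have r3 : δ' * Real.log 2 * lH ≤ δ / 2 * lH := mul_le_mul_of_nonneg_right q1 hlH.le
    have r4 : Real.log 2 * δ' ≤ 1 := by nlinarith
    nlinarith

open Classical in
/-- **the normal order by height** -/
theorem final (δ ε : ℝ) (hδ : 0 < δ) (hε : 0 < ε) : ∃ R H0 : ℕ, ∀ H : ℕ, H0 ≤ H →
    (((Cv 2 H).filter (fun c : ℤ × ℤ => ¬ ∀ A B : ℤ, Roots c A B →
      (LF A B).ncard ≤ R ∧
      (Real.log H) ^ (3 / 2 * Real.log 2 - δ) ≤ ((SQ (-(A + B)) (A * B)).ncard : ℝ) ∧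
      ((SQ (-(A + B)) (A * B)).ncard : ℝ) ≤
        (Real.log H) ^ (3 / 2 * Real.log 2 + δ))).card : ℝ) ≤ ε * ((Cv 2 H).card : ℝ) := by
  obtain ⟨K, hK, hcmp⟩ := cmp
  obtain ⟨δ', hδ'⟩ : ∃ δ' : ℝ, δ' = min (δ / 2) 1 := ⟨_, rfl⟩
  have d0 : 0 < δ' := by rw [hδ']; exact lt_min (by positivity) one_pos
  have d1 : δ' ≤ 1 := by rw [hδ']; exact min_le_right _ _
  have d2 : δ' ≤ δ / 2 := by rw [hδ']; exact min_le_left _ _
  obtain ⟨R, hR⟩ := box_bad δ' d0 d1 (ε / K) (by positivity)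
  obtain ⟨T0, hT0⟩ := hR (ε / K) le_rfl
  obtain ⟨M, hM⟩ := Pool.Agent.TH841.LS.big_loglog δ 12 hδ
  refine ⟨R, T0 ^ 6 + M + 3 ^ 6, fun H hH => ?_⟩
  rcases (Cv 2 H).eq_empty_or_nonempty with h0 | h0
  · rw [h0]
    simp
  have ht6 := tau_spec H
  have hT : T0 ≤ tau H := by
    by_contra hcon
    push Not at hcon
    have h1 : tau H ^ 6 < T0 ^ 6 := Nat.pow_lt_pow_left hcon (by norm_num)
    omega
  have hT3 : 3 ≤ tau H := by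
    by_contra hcon
    push Not at hcon
    have h1 : tau H ^ 6 < 3 ^ 6 := Nat.pow_lt_pow_left hcon (by norm_num)
    omega
  have hTH : tau H ≤ H := tau_le (by omega)
  have l1 : Real.log (Real.log ((tau H : ℕ) : ℝ)) ≤ Real.log (Real.log (H : ℝ)) + 2 :=
    lglg_le (k := 1) (by omega) hT3 (by norm_num) (by rw [pow_one]; exact hTH)
  have l2 : Real.log (Real.log (H : ℝ)) ≤ Real.log (Real.log ((tau H : ℕ) : ℝ)) + 2 :=
    lglg_le (k := 6) hT3 (by omega) (by norm_num) (by omega)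
  have l3 := hM H (by omega)
  have hlog : 0 < Real.log (H : ℝ) := Real.log_pos (by
    have : (2 : ℝ) ≤ (H : ℝ) := by exact_mod_cast (by omega : 2 ≤ H)
    linarith)
  have h1 := hT0 (tau H) hT
  have h2 : (Cv 2 H).filter (fun c : ℤ × ℤ => ¬ ∀ A B : ℤ, Roots c A B →
      (LF A B).ncard ≤ R ∧
      (Real.log H) ^ (3 / 2 * Real.log 2 - δ) ≤ ((SQ (-(A + B)) (A * B)).ncard : ℝ) ∧
      ((SQ (-(A + B)) (A * B)).ncard : ℝ) ≤
        (Real.log H) ^ (3 / 2 * Real.log 2 + δ)) ⊆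
      (Cv 2 H).filter (fun c : ℤ × ℤ => ∃ A B : ℤ, Roots c A B ∧ BadP R δ' (tau H) A B) := by
    intro c hc
    obtain ⟨hc1, hc2⟩ := mem_filter.1 hc
    refine mem_filter.2 ⟨hc1, ?_⟩
    by_contra hcon
    push Not at hcon
    apply hc2
    intro A B hr
    have h3 := hcon A B hr
    unfold BadP at h3
    push Not at h3
    obtain ⟨h4, h5⟩ := h3
    obtain ⟨a1, a2, a3⟩ := roots_ne hr (mem_cv hc1).1
    exact ⟨h5 a1 a2 a3, cnt_of h4 hδ d0 d1 d2 l1 l2 l3 hlog rfl⟩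
  refine (Nat.cast_le.2 (card_le_card h2)).trans ?_
  obtain ⟨f, hf⟩ : ∃ f : ℤ × ℤ → ℤ × ℤ, ∀ c ∈ (Cv 2 H).filter (fun c : ℤ × ℤ =>
      ∃ A B : ℤ, Roots c A B ∧ BadP R δ' (tau H) A B), Roots c (f c).1 (f c).2 ∧
        BadP R δ' (tau H) (f c).1 (f c).2 := by
    have : ∀ c : ℤ × ℤ, ∃ t : ℤ × ℤ, c ∈ (Cv 2 H).filter (fun c : ℤ × ℤ =>
      ∃ A B : ℤ, Roots c A B ∧ BadP R δ' (tau H) A B) → Roots c t.1 t.2 ∧
        BadP R δ' (tau H) t.1 t.2 := by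
      intro c
      by_cases hc : c ∈ (Cv 2 H).filter (fun c : ℤ × ℤ =>
          ∃ A B : ℤ, Roots c A B ∧ BadP R δ' (tau H) A B)
      · obtain ⟨-, A, B, h2, h3⟩ := mem_filter.1 hc
        exact ⟨(A, B), fun _ => ⟨h2, h3⟩⟩
      · exact ⟨(0, 0), fun h2 => absurd h2 hc⟩
    choose f hf using this
    exact ⟨f, hf⟩
  have h3 : ((Cv 2 H).filter (fun c : ℤ × ℤ => ∃ A B : ℤ, Roots c A B ∧
      BadP R δ' (tau H) A B)).card ≤ ((Box (tau H)).filter (fun t : ℤ × ℤ =>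
        BadP R δ' (tau H) t.1 t.2)).card := by
    apply card_le_card_of_injOn f
    · intro c hc
      obtain ⟨h3, h4⟩ := hf c (mem_coe.1 hc)
      obtain ⟨h5, -⟩ := mem_filter.1 (mem_coe.1 hc)
      rw [mem_coe, mem_filter, mem_Box]
      exact ⟨roots_bd h5 h3, h4⟩
    · intro c hc c' hc' he
      obtain ⟨h3, -⟩ := hf c (mem_coe.1 hc)
      obtain ⟨h4, -⟩ := hf c' (mem_coe.1 hc')
      rw [he] at h3
      exact roots_inj h3 h4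
  calc (((Cv 2 H).filter (fun c : ℤ × ℤ => ∃ A B : ℤ, Roots c A B ∧
      BadP R δ' (tau H) A B)).card : ℝ) ≤ _ := Nat.cast_le.2 h3
    _ ≤ ε / K * ((tau H : ℕ) : ℝ) ^ 2 := h1
    _ ≤ ε / K * (K * ((Cv 2 H).card : ℝ)) := mul_le_mul_of_nonneg_left (hcmp H h0) (by positivity)
    _ = _ := by field_simp

end Pool.Agent.Q8.QH
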